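import Mathlib

/-!
# Exponentials of derivations of finite-dimensional algebras
-/

set_option autoImplicit false
set_option linter.all false

namespace Pool.Agent.V1113.LD

open NormedSpace

variable {𝕜 V : Type*} [RCLike 𝕜] [NormedAddCommGroup V] [NormedSpace 𝕜 V]
  [FiniteDimensional 𝕜 V]

theorem exp_mul_exp_neg (D : V →L[𝕜] V) (t : 𝕜) : exp (t • D) * exp (t • (-D)) = 1 := by
  haveI : CompleteSpace V := FiniteDimensional.complete 𝕜 V
  letI : NormedAlgebra ℚ (V →L[𝕜] V) := NormedAlgebra.restrictScalars ℚ 𝕜 _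
  rw [← exp_add_of_commute]
  · simp
  · simp [Commute, SemiconjBy]

theorem exp_neg_mul_exp (D : V →L[𝕜] V) (t : 𝕜) : exp (t • (-D)) * exp (t • D) = 1 := by
  have := exp_mul_exp_neg (-D) t
  rwa [neg_neg] at this

theorem hasDerivAt_exp_apply (D : V →L[𝕜] V) (x : V) (t : 𝕜) :
    HasDerivAt (fun s : 𝕜 => exp (s • D) x) (D (exp (t • D) x)) t := by
  haveI : CompleteSpace V := FiniteDimensional.complete 𝕜 V
  have h := hasDerivAt_exp_smul_const' D t
  have h2 := h.clm_apply (hasDerivAt_const t x)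
  simpa using h2

theorem hasDerivAt_exp_neg_apply (D : V →L[𝕜] V) {f : 𝕜 → V} {f' : V} {t : 𝕜}
    (hf : HasDerivAt f f' t) :
    HasDerivAt (fun s : 𝕜 => exp (s • (-D)) (f s)) (exp (t • (-D)) (f' - D (f t))) t := by
  haveI : CompleteSpace V := FiniteDimensional.complete 𝕜 V
  have h := hasDerivAt_exp_smul_const (-D) t
  have h2 := h.clm_apply hf
  refine h2.congr_deriv ?_
  simp only [ContinuousLinearMap.mul_apply, ContinuousLinearMap.neg_apply, map_neg, map_sub]
  abel

/-- The exponential of a derivation is an automorphism. -/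
theorem exp_aut (μ : V →L[𝕜] V →L[𝕜] V) {D : V →L[𝕜] V}
    (hD : ∀ x y, D (μ x y) = μ (D x) y + μ x (D y)) (t : 𝕜) (x y : V) :
    exp (t • D) (μ x y) = μ (exp (t • D) x) (exp (t • D) y) := by
  have hF : ∀ s : 𝕜, HasDerivAt
      (fun s : 𝕜 => exp (s • (-D)) (μ (exp (s • D) x) (exp (s • D) y))) 0 s := by
    intro s
    have h1 := hasDerivAt_exp_apply D x s
    have h2 := hasDerivAt_exp_apply D y s
    have h3 : HasDerivAt (fun s : 𝕜 => μ (exp (s • D) x)) (μ (D (exp (s • D) x))) s :=
      μ.hasFDerivAt.comp_hasDerivAt s h1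
    have h4 := h3.clm_apply h2
    have h5 := hasDerivAt_exp_neg_apply D h4
    refine h5.congr_deriv ?_
    rw [hD, sub_self, map_zero]
  have hc := is_const_of_deriv_eq_zero (fun s => (hF s).differentiableAt)
    (fun s => (hF s).deriv) t 0
  simp only [zero_smul] at hc
  have h0 : (exp (0 : V →L[𝕜] V) : V →L[𝕜] V) = 1 := by
    letI : NormedAlgebra ℚ (V →L[𝕜] V) := NormedAlgebra.restrictScalars ℚ 𝕜 _
    exact NormedSpace.exp_zero
  rw [h0] at hc
  have h6 := congrArg (fun v => (exp (t • D) : V →L[𝕜] V) v) hc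
  have h7 : ∀ v, exp (t • D) (exp (t • (-D)) v) = v := fun v =>
    congrArg (fun f : V →L[𝕜] V => f v) (exp_mul_exp_neg D t)
  simp only [h7] at h6
  exact h6.symm

/-- The derivative of a curve in a linear subspace lies in the subspace. -/
theorem deriv_mem {W : Submodule 𝕜 V} {g : 𝕜 → V} {g' : V} {t : 𝕜} (hg : HasDerivAt g g' t)
    (hW : ∀ s, g s ∈ W) : g' ∈ W := by
  have hc : IsClosed (W : Set V) := Submodule.closed_of_finiteDimensional W
  have h := hasDerivAt_iff_tendsto_slope.1 hg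
  refine hc.mem_of_tendsto h (Filter.Eventually.of_forall fun s => ?_)
  rw [slope_def_module]
  exact W.smul_mem _ (W.sub_mem (hW s) (hW t))

end Pool.Agent.V1113.LD
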