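import Mathlib

set_option autoImplicit false
set_option linter.all false

namespace Pool.Agent.V1113.JacLite

open Polynomial

/-- A case of Jacobson's formula: if `D = [X, ·]`, `D m = m1`, `D m1 = m2`, `D m2 = 0` and `m` commutes
with `m1` and `m2`, then `(X + m) ^ p = X ^ p + m ^ p` in characteristic `p > 3`. -/
theorem jac {F A : Type*} [Field F] [Ring A] [Algebra F A] (p : ℕ) [hpp : Fact p.Prime] [CharP F p]
    (hp : 3 < p) {X m m1 m2 : A} (h1 : X * m = m * X + m1) (h2 : X * m1 = m1 * X + m2)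
    (h3 : X * m2 = m2 * X) (c1 : m * m1 = m1 * m) (c2 : m * m2 = m2 * m) :
    (X + m) ^ p = X ^ p + m ^ p := by
  nontriviality A
  set a : A[X] := C m * Polynomial.X + C X with ha
  have hda : derivative a = C m := by simp [ha]
  have hc : ∀ c d : A, X * c = c * X + d → m * c = c * m → C c * a = a * C c - C d := by
    intro c d h h'
    have e1 : a * C c = C (m * c) * Polynomial.X + C (X * c) := by
      rw [ha, add_mul, mul_assoc, X_mul_C, ← mul_assoc, ← C_mul, ← C_mul]
    have e2 : C c * a = C (c * m) * Polynomial.X + C (c * X) := by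
      rw [ha, mul_add, ← mul_assoc, ← C_mul, ← C_mul]
    rw [e1, e2, h, h', C_add]
    abel
  have b1 : C m * a = a * C m - C m1 := hc m m1 h1 rfl
  have b2 : C m1 * a = a * C m1 - C m2 := hc m1 m2 h2 c1
  have b3 : C m2 * a = a * C m2 := by
    have := hc m2 0 (by rw [h3, add_zero]) c2
    rwa [C_0, sub_zero] at this
  have key : ∀ n : ℕ, derivative (a ^ (n + 3)) = (n + 3) • (a ^ (n + 2) * C m) -
      (n + 3).choose 2 • (a ^ (n + 1) * C m1) + (n + 3).choose 3 • (a ^ n * C m2) := by
    intro n
    induction n with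
    | zero =>
      have e1 : derivative (a ^ 3) = C m * a * a + a * (C m * a) + a * a * C m := by
        rw [pow_succ, pow_two, derivative_mul, derivative_mul, hda]; noncomm_ring
      have e2 : (0 + 3).choose 2 = 3 := rfl
      have e3 : (0 + 3).choose 3 = 1 := rfl
      rw [zero_add, e1, b1, sub_mul, mul_assoc a, b1, b2, e2, e3]
      noncomm_ring
    | succ n ih =>
      have e2 : (n + 1 + 3).choose 2 = (n + 3) + (n + 3).choose 2 := by
        rw [show n + 1 + 3 = (n + 3) + 1 from rfl, Nat.choose_succ_succ' (n + 3) 1, Nat.choose_one_right]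
      have e3 : (n + 1 + 3).choose 3 = (n + 3).choose 2 + (n + 3).choose 3 := by
        rw [show n + 1 + 3 = (n + 3) + 1 from rfl, Nat.choose_succ_succ' (n + 3) 2]
      rw [show n + 1 + 3 = (n + 3) + 1 from rfl, pow_succ, derivative_mul, hda, ih]
      rw [show (n + 3) + 1 = n + 1 + 3 from rfl, e2, e3]
      generalize (n + 3).choose 2 = N2
      generalize (n + 3).choose 3 = N3
      rw [add_mul, sub_mul, smul_mul_assoc, smul_mul_assoc, smul_mul_assoc, mul_assoc _ (C m),
        mul_assoc _ (C m1), mul_assoc _ (C m2), b1, b2, b3]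
      simp only [mul_sub, ← mul_assoc, ← pow_succ, smul_sub, add_smul, one_smul]
      abel
  haveI : CharP A[X] p :=
    charP_of_injective_algebraMap (FaithfulSMul.algebraMap_injective F A[X]) p
  have hd : derivative (a ^ p) = 0 := by
    obtain ⟨n, hn⟩ : ∃ n, p = n + 3 := ⟨p - 3, by omega⟩
    have e1 : ∀ j, 0 < j → j < p → ((p.choose j : ℕ) : A[X]) = 0 := fun j hj hjp =>
      (CharP.cast_eq_zero_iff A[X] p _).2 (hpp.out.dvd_choose_self hj.ne' hjp)
    have e2 : ((p : ℕ) : A[X]) = 0 := CharP.cast_eq_zero _ _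
    have := key n
    rw [← hn] at this
    rw [this, nsmul_eq_mul, nsmul_eq_mul, nsmul_eq_mul, e1 2 (by norm_num) (by omega),
      e1 3 (by norm_num) hp, e2]
    simp
  have hcoeff : ∀ n, 0 < n → n < p → (a ^ p).coeff n = 0 := by
    intro n hn hnp
    obtain ⟨l, rfl⟩ : ∃ l, n = l + 1 := ⟨n - 1, by omega⟩
    have e1 : (derivative (a ^ p)).coeff l = 0 := by rw [hd]; simp
    rw [coeff_derivative] at e1
    have e2 : ((l + 1 : ℕ) : F) ≠ 0 := by
      rw [Ne, CharP.cast_eq_zero_iff F p]
      exact Nat.not_dvd_of_pos_of_lt hn hnp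
    have e3 : ((l : A) + 1) * algebraMap F A (((l + 1 : ℕ) : F)⁻¹) = 1 := by
      have : ((l : A) + 1) = algebraMap F A ((l + 1 : ℕ) : F) := by simp
      rw [this, ← map_mul, mul_inv_cancel₀ e2, map_one]
    calc (a ^ p).coeff (l + 1) = (a ^ p).coeff (l + 1) * (((l : A) + 1) *
          algebraMap F A (((l + 1 : ℕ) : F)⁻¹)) := by rw [e3, mul_one]
      _ = 0 := by rw [← mul_assoc, e1, zero_mul]
  have hdeg : a.natDegree ≤ 1 := by
    rw [ha]; compute_degree
  have hdeg' : (a ^ p).natDegree < p + 1 := by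
    refine lt_of_le_of_lt natDegree_pow_le ?_
    nlinarith
  let E : A[X] →+* A := eval₂RingHom' (RingHom.id A) 1 (fun a => Commute.one_right a)
  have e1 : E a = X + m := by
    change eval₂ (RingHom.id A) 1 a = _
    rw [ha, eval₂_add, eval₂_mul_X, eval₂_C, eval₂_C]
    simp [add_comm]
  have e2 : E (a ^ p) = ∑ i ∈ Finset.range (p + 1), (a ^ p).coeff i := by
    change eval₂ (RingHom.id A) 1 (a ^ p) = _
    rw [eval₂_eq_sum_range' _ hdeg']
    simp
  have e3 : (a ^ p).coeff 0 = X ^ p := by
    have : constantCoeff (a ^ p) = (constantCoeff a) ^ p := map_pow _ _ _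
    have h4 : constantCoeff a = X := by simp [ha]
    rw [h4] at this
    exact this
  have e4 : (a ^ p).coeff p = m ^ p := by
    have := coeff_pow_of_natDegree_le (m := p) hdeg
    rw [mul_one] at this
    rw [this]
    simp [ha, coeff_X, coeff_C]
  rw [← e1, ← map_pow, e2, Finset.sum_range_succ, e4, Finset.sum_eq_single 0, e3]
  · intro i hi hi0
    exact hcoeff i (Nat.pos_of_ne_zero hi0) (Finset.mem_range.1 hi)
  · intro h; exact absurd (Finset.mem_range.2 hpp.out.pos) h

end Pool.Agent.V1113.JacLite
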