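import Mathlib

set_option autoImplicit false
set_option linter.all false

namespace Pool.Agent.V1113.BoolProd

open scoped Cardinal
open TopologicalSpace

universe u

/-- `B` is a Boolean `m`-algebra. -/
def IsMAlg (m : Cardinal.{0}) (B : Type) [BooleanAlgebra B] : Prop :=
  ∀ S : Set B, #S ≤ m → (∃ x, IsLUB S x) ∧ ∃ x, IsGLB S x

/-- `h` preserves the existing joins and meets of at most `m` elements. -/
def IsMHom (m : Cardinal.{0}) {A B : Type} [BooleanAlgebra A] [BooleanAlgebra B]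
    (h : BoundedLatticeHom A B) : Prop :=
  ∀ S : Set A, #S ≤ m → (∀ x, IsLUB S x → IsLUB (h '' S) (h x)) ∧
    ∀ x, IsGLB S x → IsGLB (h '' S) (h x)

/-- The only `m`-subalgebra of `B` that contains `G` is `B`. -/
def Generates (m : Cardinal.{0}) {B : Type} [BooleanAlgebra B] (G : Set B) : Prop :=
  ∀ S : Set B, G ⊆ S → (∀ x ∈ S, xᶜ ∈ S) → (∀ R ⊆ S, #R ≤ m → ∀ x, IsLUB R x → x ∈ S) → ∀ x, x ∈ S

/-! ### Joins and meets -/

theorem isLUB_compl {B : Type*} [BooleanAlgebra B] {S : Set B} {x : B} (h : IsGLB S x) :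
    IsLUB (compl '' S) xᶜ := by
  constructor
  · rintro _ ⟨y, hy, rfl⟩
    exact compl_le_compl (h.1 hy)
  · intro z hz
    rw [compl_le_iff_compl_le]
    refine h.2 fun y hy => ?_
    rw [compl_le_iff_compl_le]
    exact hz ⟨y, hy, rfl⟩

theorem isGLB_compl {B : Type*} [BooleanAlgebra B] {S : Set B} {x : B} (h : IsLUB S x) :
    IsGLB (compl '' S) xᶜ := by
  constructor
  · rintro _ ⟨y, hy, rfl⟩
    exact compl_le_compl (h.1 hy)
  · intro z hz
    rw [le_compl_comm]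
    refine h.2 fun y hy => ?_
    rw [le_compl_comm]
    exact hz ⟨y, hy, rfl⟩

theorem compl_image_image {B : Type*} [BooleanAlgebra B] (S : Set B) :
    compl '' (compl '' S) = S := by
  rw [Set.image_image]; simp

theorem isMAlg_of {m : Cardinal.{0}} {B : Type} [BooleanAlgebra B]
    (h : ∀ S : Set B, ∃ x, IsLUB S x) : IsMAlg m B := by
  intro S _
  refine ⟨h S, ?_⟩
  obtain ⟨x, hx⟩ := h (compl '' S)
  refine ⟨xᶜ, ?_⟩
  have := isGLB_compl hx
  rwa [compl_image_image] at this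

theorem isMHom_of {m : Cardinal.{0}} {A B : Type} [BooleanAlgebra A] [BooleanAlgebra B]
    {h : BoundedLatticeHom A B}
    (H : ∀ S : Set A, #S ≤ m → ∀ x, IsLUB S x → IsLUB (h '' S) (h x)) : IsMHom m h := by
  intro S hS
  refine ⟨H S hS, fun x hx => ?_⟩
  have h1 := H (compl '' S) (Cardinal.mk_image_le.trans hS) xᶜ (isLUB_compl hx)
  have h2 := isGLB_compl h1
  rw [map_compl', compl_compl, Set.image_image, Set.image_image] at h2
  simpa only [map_compl', compl_compl] using h2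

/-! ### Regular open sets -/

/-- The regular open sets. -/
abbrev RO (Y : Type) [TopologicalSpace Y] : Type := Heyting.Regular (Opens Y)

section RO

variable {X Y : Type} [TopologicalSpace X] [TopologicalSpace Y]

theorem isLUB_RO (S : Set (RO Y)) : IsLUB S (Heyting.Regular.toRegular (sSup (Heyting.Regular.val '' S))) := by
  have h1 := Heyting.Regular.gi.gc.isLUB_l_image (isLUB_sSup (Heyting.Regular.val '' S : Set (Opens Y)))
  rw [Set.image_image] at h1
  simpa using h1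

theorem comap_compl (f : C(Y, X)) (hf : IsOpenMap f) (U : Opens X) :
    Opens.comap f Uᶜ = (Opens.comap f U)ᶜ := by
  apply le_antisymm
  · rw [le_compl_iff_disjoint_right, disjoint_iff, ← map_inf, compl_inf_self, map_bot]
  · have h1 : (⟨f '' ((Opens.comap f U)ᶜ : Opens Y), hf _ (Opens.isOpen _)⟩ : Opens X) ≤ Uᶜ := by
      rw [le_compl_iff_disjoint_right, disjoint_iff]
      rw [eq_bot_iff]
      rintro x ⟨⟨y, hy, rfl⟩, hx⟩
      have : y ∈ ((Opens.comap f U)ᶜ ⊓ Opens.comap f U : Opens Y) := ⟨hy, hx⟩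
      rw [compl_inf_self] at this
      exact this.elim
    intro y hy
    exact h1 ⟨y, hy, rfl⟩

/-- The pullback along an open continuous map. -/
def pull (f : C(Y, X)) (hf : IsOpenMap f) : BoundedLatticeHom (RO X) (RO Y) where
  toFun a := ⟨Opens.comap f a.val, by
    rw [Heyting.IsRegular, ← comap_compl f hf, ← comap_compl f hf, a.prop.eq]⟩
  map_sup' a b := by
    apply Heyting.Regular.coe_injective
    change Opens.comap f (a ⊔ b : RO X).val = (Opens.comap f a.val ⊔ Opens.comap f b.val)ᶜᶜ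
    rw [Heyting.Regular.coe_sup, comap_compl f hf, comap_compl f hf, map_sup]
  map_inf' a b := by
    apply Heyting.Regular.coe_injective
    change Opens.comap f (a ⊓ b : RO X).val = (Opens.comap f a.val ⊓ Opens.comap f b.val)
    rw [Heyting.Regular.coe_inf, map_inf]
  map_top' := by
    apply Heyting.Regular.coe_injective
    change Opens.comap f (⊤ : RO X).val = ⊤
    rw [Heyting.Regular.coe_top, map_top]
  map_bot' := by
    apply Heyting.Regular.coe_injective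
    change Opens.comap f (⊥ : RO X).val = ⊥
    rw [Heyting.Regular.coe_bot, map_bot]

theorem pull_val (f : C(Y, X)) (hf : IsOpenMap f) (a : RO X) :
    (pull f hf a).val = Opens.comap f a.val := rfl

theorem pull_isLUB (f : C(Y, X)) (hf : IsOpenMap f) (S : Set (RO X)) (x : RO X) (hx : IsLUB S x) :
    IsLUB (pull f hf '' S) (pull f hf x) := by
  have h1 : x = Heyting.Regular.toRegular (sSup (Heyting.Regular.val '' S)) := hx.unique (isLUB_RO S)
  have h2 := isLUB_RO (pull f hf '' S)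
  have h3 : Heyting.Regular.toRegular (sSup (Heyting.Regular.val '' (pull f hf '' S))) = pull f hf x := by
    apply Heyting.Regular.coe_injective
    rw [Heyting.Regular.coe_toRegular, pull_val, h1, Heyting.Regular.coe_toRegular,
      comap_compl f hf, comap_compl f hf, map_sSup, Set.image_image, Set.image_image]
    rfl
  rwa [h3] at h2

theorem pull_isMHom (m : Cardinal.{0}) (f : C(Y, X)) (hf : IsOpenMap f) : IsMHom m (pull f hf) :=
  isMHom_of fun S _ x hx => pull_isLUB f hf S x hx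

theorem pull_inj (f : C(Y, X)) (hf : IsOpenMap f) (hs : Function.Surjective f) :
    Function.Injective (pull f hf) := by
  intro a b hab
  apply Heyting.Regular.coe_injective
  apply Opens.ext
  have h1 : (f ⁻¹' (a.val : Set X)) = f ⁻¹' (b.val : Set X) := by
    have := congrArg (fun c : RO Y => ((c.val : Opens Y) : Set Y)) hab
    exact this
  exact hs.preimage_injective h1

end RO

/-! ### Clopen sets -/

section clopen

variable {Y : Type} [TopologicalSpace Y]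

theorem compl_clopen {U : Set Y} (hU : IsClopen U) :
    (⟨U, hU.isOpen⟩ : Opens Y)ᶜ = ⟨Uᶜ, hU.compl.isOpen⟩ := by
  apply IsCompl.compl_eq
  rw [isCompl_iff, disjoint_iff, codisjoint_iff]
  constructor
  · apply Opens.ext; simp
  · apply Opens.ext; simp

/-- A clopen set as a regular open set. -/
def clo (U : Set Y) (hU : IsClopen U) : RO Y :=
  ⟨⟨U, hU.isOpen⟩, by
    rw [Heyting.IsRegular, compl_clopen hU, compl_clopen hU.compl]
    apply Opens.ext; simp⟩

theorem compl_clo {U : Set Y} (hU : IsClopen U) : (clo U hU)ᶜ = clo Uᶜ hU.compl := by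
  apply Heyting.Regular.coe_injective
  exact compl_clopen hU

/-- Membership. -/
def mem (y : Y) (a : RO Y) : Prop := y ∈ (a.val : Opens Y)

theorem le_iff {a b : RO Y} : a ≤ b ↔ ∀ y, mem y a → mem y b := Iff.rfl

theorem mem_clo {U : Set Y} (hU : IsClopen U) (y : Y) : mem y (clo U hU) ↔ y ∈ U := Iff.rfl

theorem mem_inf {a b : RO Y} (y : Y) : mem y (a ⊓ b) ↔ mem y a ∧ mem y b := Iff.rfl

theorem mem_top (y : Y) : mem y (⊤ : RO Y) := trivial

theorem not_mem_bot (y : Y) : ¬ mem y (⊥ : RO Y) := fun h => h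

theorem ne_bot_iff {a : RO Y} : a ≠ ⊥ ↔ ∃ y, mem y a := by
  constructor
  · intro h
    by_contra h'
    push Not at h'
    apply h
    rw [eq_bot_iff, le_iff]
    exact fun y hy => (h' y hy).elim
  · rintro ⟨y, hy⟩ rfl
    exact hy

end clopen

/-! ### The Cantor space -/

/-- The Cantor space. -/
abbrev X : Type := ℕ → Bool

/-- The generators. -/
def c (i : ℕ) : RO X := clo ((fun x : X => x i) ⁻¹' {true})
  ((isClopen_discrete {true}).preimage (continuous_apply i))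

theorem mem_c (i : ℕ) (x : X) : mem x (c i) ↔ x i = true := Iff.rfl

theorem mem_c_compl (i : ℕ) (x : X) : mem x (c i)ᶜ ↔ x i = false := by
  rw [c, compl_clo, mem_clo]
  simp

theorem exists_nhds {a : RO X} {x : X} (h : mem x a) :
    ∃ I : Finset ℕ, ∀ z : X, (∀ i ∈ I, z i = x i) → mem z a := by
  have h1 := isOpen_pi_iff.1 a.val.isOpen x h
  obtain ⟨I, u, hu, hs⟩ := h1
  refine ⟨I, fun z hz => hs ?_⟩
  intro i hi
  rw [hz i hi]
  exact (hu i hi).2

theorem split {a : RO X} (h : a ≠ ⊥) : ∃ i, a ⊓ c i ≠ ⊥ ∧ a ⊓ (c i)ᶜ ≠ ⊥ := by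
  obtain ⟨x, hx⟩ := ne_bot_iff.1 h
  obtain ⟨I, hI⟩ := exists_nhds hx
  obtain ⟨i, hi⟩ := Infinite.exists_notMem_finset I
  refine ⟨i, ne_bot_iff.2 ⟨Function.update x i true, ?_⟩, ne_bot_iff.2 ⟨Function.update x i false, ?_⟩⟩
  · rw [mem_inf, mem_c]
    refine ⟨hI _ fun j hj => ?_, by simp⟩
    have hij : j ≠ i := fun h => hi (by rw [← h]; exact hj)
    rw [Function.update_of_ne hij]
  · rw [mem_inf, mem_c_compl]
    refine ⟨hI _ fun j hj => ?_, by simp⟩
    have hij : j ≠ i := fun h => hi (by rw [← h]; exact hj)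
    rw [Function.update_of_ne hij]

/-- The translation. -/
def flip (q : Finset ℕ) (x : X) : X := fun i => xor (decide (i ∈ q)) (x i)

theorem flip_flip (q : Finset ℕ) (x : X) : flip q (flip q x) = x := by
  funext i; simp [flip]

theorem continuous_flip (q : Finset ℕ) : Continuous (flip q) := by
  refine continuous_pi fun i => ?_
  exact (continuous_of_discreteTopology (f := fun b : Bool => xor (decide (i ∈ q)) b)).comp
    (continuous_apply i)

/-- The translation as a homeomorphism. -/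
def flipH (q : Finset ℕ) : X ≃ₜ X where
  toFun := flip q
  invFun := flip q
  left_inv := flip_flip q
  right_inv := flip_flip q
  continuous_toFun := continuous_flip q
  continuous_invFun := continuous_flip q

/-- The automorphism of the translation. -/
def tau (q : Finset ℕ) : BoundedLatticeHom (RO X) (RO X) := pull (flipH q : C(X, X)) (flipH q).isOpenMap

theorem mem_tau (q : Finset ℕ) (a : RO X) (x : X) : mem x (tau q a) ↔ mem (flip q x) a := Iff.rfl

theorem tau_c (q : Finset ℕ) (i : ℕ) : tau q (c i) = if i ∈ q then (c i)ᶜ else c i := by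
  apply le_antisymm
  · rw [le_iff]
    intro x hx
    rw [mem_tau, mem_c] at hx
    split_ifs with h
    · rw [mem_c_compl]; simpa [flip, h] using hx
    · rw [mem_c]; simpa [flip, h] using hx
  · rw [le_iff]
    intro x hx
    rw [mem_tau, mem_c]
    split_ifs at hx with h
    · rw [mem_c_compl] at hx; simp [flip, h, hx]
    · rw [mem_c] at hx; simp [flip, h, hx]

/-! ### Products of homomorphisms -/

/-- The homomorphism into a power. -/
def piHom {A B : Type} {Q : Type} [BooleanAlgebra A] [BooleanAlgebra B]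
    (h : Q → BoundedLatticeHom A B) : BoundedLatticeHom A (Q → B) where
  toFun a q := h q a
  map_sup' a b := by funext q; exact map_sup (h q) a b
  map_inf' a b := by funext q; exact map_inf (h q) a b
  map_top' := by funext q; exact map_top (h q)
  map_bot' := by funext q; exact map_bot (h q)

theorem piHom_isMHom {m : Cardinal.{0}} {A B : Type} {Q : Type} [BooleanAlgebra A] [BooleanAlgebra B]
    (h : Q → BoundedLatticeHom A B) (hh : ∀ q, IsMHom m (h q)) : IsMHom m (piHom h) := by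
  apply isMHom_of
  intro S hS x hx
  rw [isLUB_pi]
  intro q
  have := (hh q S hS).1 x hx
  rw [Set.image_image]
  exact this

/-- The first and second embedding into the twisted power. -/
def i0 : BoundedLatticeHom (RO X) (Finset ℕ → RO X) := piHom fun _ => BoundedLatticeHom.id _

def i1 : BoundedLatticeHom (RO X) (Finset ℕ → RO X) := piHom tau

theorem i0_apply (a : RO X) (q : Finset ℕ) : i0 a q = a := rfl
theorem i1_apply (a : RO X) (q : Finset ℕ) : i1 a q = tau q a := rfl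

theorem i0_isMHom (m : Cardinal.{0}) : IsMHom m i0 := by
  apply piHom_isMHom
  intro q S hS
  constructor
  · intro x hx
    simpa using hx
  · intro x hx
    simpa using hx

theorem i1_isMHom (m : Cardinal.{0}) : IsMHom m i1 :=
  piHom_isMHom _ fun q => pull_isMHom m _ _

theorem i0_inj : Function.Injective i0 := fun a b h => congrFun h ∅

theorem i1_inj : Function.Injective i1 := fun a b h =>
  pull_inj (flipH ∅ : C(X, X)) (flipH ∅).isOpenMap (flipH ∅).surjective (congrFun h ∅)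

theorem indep_B {a b : RO X} (ha : a ≠ ⊥) (hb : b ≠ ⊥) : i0 a ⊓ i1 b ≠ ⊥ := by
  obtain ⟨x, hx⟩ := ne_bot_iff.1 ha
  obtain ⟨y, hy⟩ := ne_bot_iff.1 hb
  obtain ⟨I, hI⟩ := exists_nhds hy
  intro h
  have h1 := congrFun h (I.filter fun i => x i ≠ y i)
  have h2 : a ⊓ tau (I.filter fun i => x i ≠ y i) b ≠ ⊥ := by
    rw [ne_bot_iff]
    refine ⟨x, (mem_inf _).2 ⟨hx, (mem_tau _ _ _).2 (hI _ fun i hi => ?_)⟩⟩
    by_cases hxy : x i = y i
    · simp [flip, hxy]
    · have : i ∈ I.filter fun i => x i ≠ y i := Finset.mem_filter.2 ⟨hi, hxy⟩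
      simp only [flip, this, decide_true, Bool.true_xor]
      revert hxy
      cases x i <;> cases y i <;> simp
  exact h2 h1

/-! ### The diagonal elements -/

/-- `u i ⇔ v i`, or its complement when `i ∈ q`. -/
def EE {B : Type} [BooleanAlgebra B] (u v : ℕ → B) (q : Finset ℕ) (i : ℕ) : B :=
  if i ∈ q then (u i ⊓ v i ⊔ (u i)ᶜ ⊓ (v i)ᶜ)ᶜ else u i ⊓ v i ⊔ (u i)ᶜ ⊓ (v i)ᶜ

theorem map_EE {B M : Type} [BooleanAlgebra B] [BooleanAlgebra M] (h : BoundedLatticeHom B M)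
    (u v : ℕ → B) (q : Finset ℕ) (i : ℕ) :
    h (EE u v q i) = EE (fun i => h (u i)) (fun i => h (v i)) q i := by
  unfold EE
  split_ifs <;> simp only [map_compl', map_sup, map_inf]

/-- The slice. -/
def sl (q : Finset ℕ) : Finset ℕ → RO X := fun q' => if q' = q then ⊤ else ⊥

theorem EE_apply (q : Finset ℕ) (i : ℕ) (q' : Finset ℕ) :
    EE (fun i => i0 (c i)) (fun i => i1 (c i)) q i q' = if (i ∈ q ↔ i ∈ q') then ⊤ else ⊥ := by
  have h0 : EE (fun i => i0 (c i)) (fun i => i1 (c i)) q i q' =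
      EE (fun i => c i) (fun i => tau q' (c i)) q i := by
    unfold EE
    split_ifs <;> rfl
  have h3 : ∀ {A : Type} [BooleanAlgebra A] (u : A), (u ⊓ u ⊔ uᶜ ⊓ uᶜ) = ⊤ := by
    intro A _ u; simp
  have h4 : ∀ {A : Type} [BooleanAlgebra A] (u : A), (u ⊓ uᶜ ⊔ uᶜ ⊓ uᶜᶜ) = ⊥ := by
    intro A _ u; simp
  rw [h0]
  unfold EE
  beta_reduce
  rw [tau_c]
  by_cases h1 : i ∈ q <;> by_cases h2 : i ∈ q'
  · rw [if_pos h1, if_pos h2, if_pos (by simp [h1, h2]), h4, compl_bot]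
  · rw [if_pos h1, if_neg h2, if_neg (by simp [h1, h2]), h3, compl_top]
  · rw [if_neg h1, if_pos h2, if_neg (by simp [h1, h2]), h4]
  · rw [if_neg h1, if_neg h2, if_pos (by simp [h1, h2]), h3]

theorem isGLB_sl (q : Finset ℕ) :
    IsGLB (Set.range (EE (fun i => i0 (c i)) (fun i => i1 (c i)) q)) (sl q) := by
  constructor
  · rintro _ ⟨i, rfl⟩ q'
    rw [EE_apply]
    unfold sl
    by_cases h : q' = q
    · subst h; simp
    · simp [h]
  · intro z hz q'
    unfold sl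
    by_cases h : q' = q
    · simp [h]
    · obtain ⟨i, hi⟩ : ∃ i, ¬ (i ∈ q ↔ i ∈ q') := by
        by_contra h'
        push Not at h'
        apply h
        ext i
        exact (h' i).symm
      have h1 := hz ⟨i, rfl⟩ q'
      rw [EE_apply, if_neg hi] at h1
      rw [if_neg h]
      exact h1

theorem isLUB_sl : IsLUB (Set.range sl) ⊤ := by
  constructor
  · intro z _; exact le_top
  · intro z hz q
    have h1 := hz ⟨q, rfl⟩ q
    unfold sl at h1
    rw [if_pos rfl] at h1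
    exact h1

/-! ### The core argument -/

theorem isGLB_bot {A M : Type} [BooleanAlgebra A] [BooleanAlgebra M] {c : ℕ → A}
    (split : ∀ {a : A}, a ≠ ⊥ → ∃ i, a ⊓ c i ≠ ⊥ ∧ a ⊓ (c i)ᶜ ≠ ⊥) {j0 j1 : BoundedLatticeHom A M}
    (hind : ∀ a b, a ≠ ⊥ → b ≠ ⊥ → j0 a ⊓ j1 b ≠ ⊥)
    (hdense : ∀ z : M, z ≠ ⊥ → ∃ a b, j0 a ⊓ j1 b ≠ ⊥ ∧ j0 a ⊓ j1 b ≤ z) (q : Finset ℕ) :
    IsGLB (Set.range (EE (fun i => j0 (c i)) (fun i => j1 (c i)) q)) ⊥ := by
  refine ⟨fun z _ => bot_le, fun z hz => ?_⟩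
  by_contra hz0
  obtain ⟨a, b, hab, habz⟩ := hdense z (fun h => hz0 h.le)
  have ha : a ≠ ⊥ := by rintro rfl; simp at hab
  have hb : b ≠ ⊥ := by rintro rfl; simp at hab
  obtain ⟨i, hi1, hi2⟩ := split ha
  have h1 : j0 a ⊓ j1 b ≤ EE (fun i => j0 (c i)) (fun i => j1 (c i)) q i := habz.trans (hz ⟨i, rfl⟩)
  -- one of the two parts of `b` is nonzero
  have key : ∀ (s t : A), a ⊓ s ≠ ⊥ → b ⊓ t ≠ ⊥ →
      ¬ (EE (fun i => j0 (c i)) (fun i => j1 (c i)) q i ⊓ (j0 s ⊓ j1 t) = ⊥) := by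
    intro s t hs ht h
    apply hind _ _ hs ht
    rw [eq_bot_iff, ← h, map_inf, map_inf]
    calc j0 a ⊓ j0 s ⊓ (j1 b ⊓ j1 t) = (j0 a ⊓ j1 b) ⊓ (j0 s ⊓ j1 t) := by
          rw [inf_inf_inf_comm]
      _ ≤ _ := inf_le_inf_right _ h1
  have hb' : b ⊓ c i ≠ ⊥ ∨ b ⊓ (c i)ᶜ ≠ ⊥ := by
    by_contra h
    push Not at h
    apply hb
    rw [← inf_top_eq b, ← sup_compl_eq_top (x := c i), inf_sup_left, h.1, h.2, sup_idem]
  have e1 : ∀ u v : M, (u ⊓ v ⊔ uᶜ ⊓ vᶜ) ⊓ (u ⊓ vᶜ) = ⊥ := by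
    intro u v
    rw [inf_sup_right, inf_inf_inf_comm, inf_compl_self, inf_bot_eq, inf_inf_inf_comm,
      compl_inf_self, bot_inf_eq, sup_bot_eq]
  have e2 : ∀ u v : M, (u ⊓ v ⊔ uᶜ ⊓ vᶜ) ⊓ (uᶜ ⊓ v) = ⊥ := by
    intro u v
    rw [inf_sup_right, inf_inf_inf_comm, inf_compl_self, bot_inf_eq, inf_inf_inf_comm,
      compl_inf_self, inf_bot_eq, sup_bot_eq]
  have e3 : ∀ u v : M, (u ⊓ v ⊔ uᶜ ⊓ vᶜ)ᶜ ⊓ (u ⊓ v) = ⊥ := by
    intro u v
    rw [eq_bot_iff]
    calc (u ⊓ v ⊔ uᶜ ⊓ vᶜ)ᶜ ⊓ (u ⊓ v) ≤ (u ⊓ v ⊔ uᶜ ⊓ vᶜ)ᶜ ⊓ (u ⊓ v ⊔ uᶜ ⊓ vᶜ) :=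
          inf_le_inf_left _ le_sup_left
      _ = ⊥ := compl_inf_self _
      _ ≤ ⊥ := le_rfl
  have e4 : ∀ u v : M, (u ⊓ v ⊔ uᶜ ⊓ vᶜ)ᶜ ⊓ (uᶜ ⊓ vᶜ) = ⊥ := by
    intro u v
    rw [eq_bot_iff]
    calc (u ⊓ v ⊔ uᶜ ⊓ vᶜ)ᶜ ⊓ (uᶜ ⊓ vᶜ) ≤ (u ⊓ v ⊔ uᶜ ⊓ vᶜ)ᶜ ⊓ (u ⊓ v ⊔ uᶜ ⊓ vᶜ) :=
          inf_le_inf_left _ le_sup_right
      _ = ⊥ := compl_inf_self _
      _ ≤ ⊥ := le_rfl
  by_cases hq : i ∈ q
  · rcases hb' with h | h
    · apply key _ _ hi1 h
      unfold EE
      rw [if_pos hq]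
      exact e3 _ _
    · apply key _ _ hi2 h
      unfold EE
      rw [if_pos hq, map_compl', map_compl']
      exact e4 _ _
  · rcases hb' with h | h
    · apply key _ _ hi2 h
      unfold EE
      rw [if_neg hq, map_compl']
      exact e2 _ _
    · apply key _ _ hi1 h
      unfold EE
      rw [if_neg hq, map_compl']
      exact e1 _ _

theorem core {m : Cardinal.{0}} (hm : ℵ₀ ≤ m) {M : Type} [BooleanAlgebra M]
    {j0 j1 : BoundedLatticeHom (RO X) M}
    (hind : ∀ a b, a ≠ ⊥ → b ≠ ⊥ → j0 a ⊓ j1 b ≠ ⊥)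
    (hdense : ∀ z : M, z ≠ ⊥ → ∃ a b, j0 a ⊓ j1 b ≠ ⊥ ∧ j0 a ⊓ j1 b ≤ z)
    (h : BoundedLatticeHom (Finset ℕ → RO X) M) (hh : IsMHom m h) (h0 : ∀ a, h (i0 a) = j0 a)
    (h1 : ∀ a, h (i1 a) = j1 a) : False := by
  have h2 : ∀ q, h (sl q) = ⊥ := by
    intro q
    have h3 := (hh _ ((Cardinal.mk_range_le.trans Cardinal.mk_le_aleph0).trans hm)).2 _ (isGLB_sl q)
    have h4 : h '' Set.range (EE (fun i => i0 (c i)) (fun i => i1 (c i)) q) =
        Set.range (EE (fun i => j0 (c i)) (fun i => j1 (c i)) q) := by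
      rw [← Set.range_comp]
      congr 1
      funext i
      simp only [Function.comp_apply, map_EE, h0, h1]
    rw [h4] at h3
    exact h3.unique (isGLB_bot split hind hdense q)
  have h5 := (hh _ ((Cardinal.mk_range_le.trans Cardinal.mk_le_aleph0).trans hm)).1 _ isLUB_sl
  have h6 : h ⊤ ≤ ⊥ := by
    apply h5.2
    rintro _ ⟨_, ⟨q, rfl⟩, rfl⟩
    rw [h2]
  have h7 : (⊤ : RO X) ≠ ⊥ := ne_bot_iff.2 ⟨fun _ => true, mem_top _⟩
  apply hind ⊤ ⊤ h7 h7
  rw [map_top, map_top, inf_idem]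
  rw [map_top] at h6
  exact le_bot_iff.1 h6

/-! ### Generation -/

section closed

variable {m : Cardinal.{0}} (hm : ℵ₀ ≤ m) {B : Type} [BooleanAlgebra B] {S : Set B}
  (hc : ∀ x ∈ S, xᶜ ∈ S) (hl : ∀ R ⊆ S, #R ≤ m → ∀ x, IsLUB R x → x ∈ S)

include hm hl in
theorem closed_sup {x y : B} (hx : x ∈ S) (hy : y ∈ S) : x ⊔ y ∈ S := by
  refine hl {x, y} (by rintro z (rfl | rfl) <;> assumption) ?_ _ isLUB_pair
  exact (Cardinal.mk_le_aleph0_iff.2 (Set.Finite.countable (by simp))).trans hm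

include hm hc hl in
theorem closed_inf {x y : B} (hx : x ∈ S) (hy : y ∈ S) : x ⊓ y ∈ S := by
  have := hc _ (closed_sup hm hl (hc _ hx) (hc _ hy))
  rwa [compl_sup, compl_compl, compl_compl] at this

include hc hl in
theorem closed_glb {R : Set B} (hR : R ⊆ S) (hRm : #R ≤ m) {x : B} (hx : IsGLB R x) : x ∈ S := by
  have h1 := hl (compl '' R) (by rintro _ ⟨y, hy, rfl⟩; exact hc _ (hR hy))
    (Cardinal.mk_image_le.trans hRm) _ (isLUB_compl hx)
  have := hc _ h1
  rwa [compl_compl] at this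

end closed

theorem generates_B {m : Cardinal.{0}} (hm : ℵ₀ ≤ m) :
    Generates m (Set.range i0 ∪ Set.range i1) := by
  intro S hG hc hl x
  have h0 : ∀ a, i0 a ∈ S := fun a => hG (Or.inl ⟨a, rfl⟩)
  have h1 : ∀ a, i1 a ∈ S := fun a => hG (Or.inr ⟨a, rfl⟩)
  have hE : ∀ q i, EE (fun i => i0 (c i)) (fun i => i1 (c i)) q i ∈ S := by
    intro q i
    have h2 := closed_sup hm hl (closed_inf hm hc hl (h0 (c i)) (h1 (c i)))
      (closed_inf hm hc hl (hc _ (h0 (c i))) (hc _ (h1 (c i))))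
    unfold EE
    split_ifs
    · exact hc _ h2
    · exact h2
  have hsl : ∀ q, sl q ∈ S := by
    intro q
    refine closed_glb hc hl ?_ ((Cardinal.mk_range_le.trans Cardinal.mk_le_aleph0).trans hm) (isGLB_sl q)
    rintro _ ⟨i, rfl⟩
    exact hE q i
  refine hl (Set.range fun q => sl q ⊓ i0 (x q)) ?_
    ((Cardinal.mk_range_le.trans Cardinal.mk_le_aleph0).trans hm) x ⟨?_, ?_⟩
  · rintro _ ⟨q, rfl⟩
    exact closed_inf hm hc hl (hsl q) (h0 _)
  · rintro _ ⟨q, rfl⟩ q'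
    change sl q q' ⊓ x q ≤ x q'
    unfold sl
    by_cases h : q' = q
    · subst h; exact inf_le_right
    · rw [if_neg h, le_iff]
      intro y hy
      exact (not_mem_bot y ((mem_inf y).1 hy).1).elim
  · intro z hz q
    have h2 := hz ⟨q, rfl⟩ q
    change sl q q ⊓ x q ≤ z q at h2
    unfold sl at h2
    rw [if_pos rfl] at h2
    exact fun y hy => h2 ((mem_inf y).2 ⟨mem_top y, hy⟩)

/-! ### The minimal product -/

/-- The embeddings into the regular open sets of the square. -/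
def j0 : BoundedLatticeHom (RO X) (RO (X × X)) := pull ⟨Prod.fst, continuous_fst⟩ isOpenMap_fst

def j1 : BoundedLatticeHom (RO X) (RO (X × X)) := pull ⟨Prod.snd, continuous_snd⟩ isOpenMap_snd

theorem mem_j (a b : RO X) (x y : X) : mem (x, y) (j0 a ⊓ j1 b) ↔ mem x a ∧ mem y b := Iff.rfl

theorem indep_M {a b : RO X} (ha : a ≠ ⊥) (hb : b ≠ ⊥) : j0 a ⊓ j1 b ≠ ⊥ := by
  obtain ⟨x, hx⟩ := ne_bot_iff.1 ha
  obtain ⟨y, hy⟩ := ne_bot_iff.1 hb
  exact ne_bot_iff.2 ⟨(x, y), (mem_j a b x y).2 ⟨hx, hy⟩⟩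

theorem exists_box {W : RO (X × X)} {x y : X} (h : mem (x, y) W) :
    ∃ U V : Clopens X, x ∈ U ∧ y ∈ V ∧ j0 (clo U U.isClopen) ⊓ j1 (clo V V.isClopen) ≤ W := by
  obtain ⟨u, v, hu, hv, hx, hy, huv⟩ := isOpen_prod_iff.1 W.val.isOpen x y h
  obtain ⟨U, hU, hxU, hUu⟩ := compact_exists_isClopen_in_isOpen hu hx
  obtain ⟨V, hV, hyV, hVv⟩ := compact_exists_isClopen_in_isOpen hv hy
  refine ⟨⟨U, hU⟩, ⟨V, hV⟩, hxU, hyV, ?_⟩
  rw [le_iff]
  rintro ⟨a, b⟩ hab
  rw [mem_j] at hab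
  exact huv ⟨hUu hab.1, hVv hab.2⟩

theorem dense_M {W : RO (X × X)} (h : W ≠ ⊥) : ∃ a b, j0 a ⊓ j1 b ≠ ⊥ ∧ j0 a ⊓ j1 b ≤ W := by
  obtain ⟨⟨x, y⟩, hxy⟩ := ne_bot_iff.1 h
  obtain ⟨U, V, hU, hV, hUV⟩ := exists_box hxy
  exact ⟨clo U U.isClopen, clo V V.isClopen, ne_bot_iff.2 ⟨(x, y), (mem_j _ _ _ _).2 ⟨hU, hV⟩⟩, hUV⟩

theorem generates_M {m : Cardinal.{0}} (hm : ℵ₀ ≤ m) :
    Generates m (Set.range j0 ∪ Set.range j1) := by
  intro S hG hc hl W
  have h0 : ∀ a, j0 a ∈ S := fun a => hG (Or.inl ⟨a, rfl⟩)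
  have h1 : ∀ a, j1 a ∈ S := fun a => hG (Or.inr ⟨a, rfl⟩)
  haveI : Countable (Clopens X) := Clopens.countable_iff_secondCountable.2 inferInstance
  let r : Clopens X × Clopens X → RO (X × X) := fun p =>
    j0 (clo p.1 p.1.isClopen) ⊓ j1 (clo p.2 p.2.isClopen)
  refine hl (r '' {p | r p ≤ W}) ?_ ?_ W ⟨?_, ?_⟩
  · rintro _ ⟨p, _, rfl⟩
    exact closed_inf hm hc hl (h0 _) (h1 _)
  · exact (Cardinal.mk_le_aleph0_iff.2 ((Set.to_countable _).image _)).trans hm
  · rintro _ ⟨p, hp, rfl⟩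
    exact hp
  · intro z hz
    rw [le_iff]
    rintro ⟨x, y⟩ hxy
    obtain ⟨U, V, hU, hV, hUV⟩ := exists_box hxy
    exact hz ⟨(U, V), hUV, rfl⟩ ((mem_j _ _ _ _).2 ⟨hU, hV⟩)

theorem j0_isMHom (m : Cardinal.{0}) : IsMHom m j0 := pull_isMHom m _ _
theorem j1_isMHom (m : Cardinal.{0}) : IsMHom m j1 := pull_isMHom m _ _

theorem j0_inj : Function.Injective j0 := pull_inj _ _ Prod.fst_surjective
theorem j1_inj : Function.Injective j1 := pull_inj _ _ Prod.snd_surjective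

theorem isMAlg_M (m : Cardinal.{0}) : IsMAlg m (RO (X × X)) := isMAlg_of fun S => ⟨_, isLUB_RO S⟩

theorem isMAlg_B (m : Cardinal.{0}) : IsMAlg m (Finset ℕ → RO X) := by
  apply isMAlg_of
  intro S
  have h1 : ∀ q : Finset ℕ, ∃ x, IsLUB (Function.eval q '' S) x := fun q => ⟨_, isLUB_RO _⟩
  choose x hx using h1
  exact ⟨x, isLUB_pi.2 hx⟩

theorem nontrivial_RO : (⊥ : RO X) ≠ ⊤ := (ne_bot_iff.2 ⟨fun _ => true, mem_top _⟩).symm

end Pool.Agent.V1113.BoolProd
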