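import Mathlib

/-!
# The Weyl algebra by generators and relations
-/

set_option autoImplicit false
set_option linter.all false

namespace Pool.Agent.V1113.WeylPres

open TensorProduct

/-- The generators `t_j` and `∂_j` of the `k`-th Weyl algebra. -/
inductive Gen (k : ℕ) : Type
  | t (j : Fin k) : Gen k
  | d (j : Fin k) : Gen k

/-- The defining relations of the `k`-th Weyl algebra: the `t_j` commute, the `∂_j` commute, and
`∂_i t_j - t_j ∂_i` is `1` for `i = j` and `0` otherwise. -/
inductive Rel (k : ℕ) : FreeAlgebra ℂ (Gen k) → FreeAlgebra ℂ (Gen k) → Prop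
  | tt (i j : Fin k) : Rel k (FreeAlgebra.ι ℂ (Gen.t i) * FreeAlgebra.ι ℂ (Gen.t j))
      (FreeAlgebra.ι ℂ (Gen.t j) * FreeAlgebra.ι ℂ (Gen.t i))
  | dd (i j : Fin k) : Rel k (FreeAlgebra.ι ℂ (Gen.d i) * FreeAlgebra.ι ℂ (Gen.d j))
      (FreeAlgebra.ι ℂ (Gen.d j) * FreeAlgebra.ι ℂ (Gen.d i))
  | dt (i : Fin k) : Rel k (FreeAlgebra.ι ℂ (Gen.d i) * FreeAlgebra.ι ℂ (Gen.t i))
      (FreeAlgebra.ι ℂ (Gen.t i) * FreeAlgebra.ι ℂ (Gen.d i) + 1)
  | dt_ne (i j : Fin k) (h : i ≠ j) : Rel k (FreeAlgebra.ι ℂ (Gen.d i) * FreeAlgebra.ι ℂ (Gen.t j))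
      (FreeAlgebra.ι ℂ (Gen.t j) * FreeAlgebra.ι ℂ (Gen.d i))

/-- The `k`-th Weyl algebra `A_k`. -/
abbrev Weyl (k : ℕ) : Type := RingQuot (Rel k)

/-- The generator `t_j` of the Weyl algebra. -/
noncomputable def t {k : ℕ} (j : Fin k) : Weyl k :=
  RingQuot.mkAlgHom ℂ (Rel k) (FreeAlgebra.ι ℂ (Gen.t j))

/-- The generator `∂_j` of the Weyl algebra. -/
noncomputable def d {k : ℕ} (j : Fin k) : Weyl k :=
  RingQuot.mkAlgHom ℂ (Rel k) (FreeAlgebra.ι ℂ (Gen.d j))

theorem t_comm {k : ℕ} (i j : Fin k) : (t i : Weyl k) * t j = t j * t i := by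
  rw [t, t, ← map_mul, ← map_mul]
  exact RingQuot.mkAlgHom_rel ℂ (Rel.tt i j)

theorem d_comm {k : ℕ} (i j : Fin k) : (d i : Weyl k) * d j = d j * d i := by
  rw [d, d, ← map_mul, ← map_mul]
  exact RingQuot.mkAlgHom_rel ℂ (Rel.dd i j)

theorem d_t {k : ℕ} (i : Fin k) : (d i : Weyl k) * t i = t i * d i + 1 := by
  rw [t, d, ← map_mul, ← map_mul, ← map_one (RingQuot.mkAlgHom ℂ (Rel k)), ← map_add]
  exact RingQuot.mkAlgHom_rel ℂ (Rel.dt i)

theorem d_t_ne {k : ℕ} {i j : Fin k} (h : i ≠ j) : (d i : Weyl k) * t j = t j * d i := by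
  rw [t, d, ← map_mul, ← map_mul]
  exact RingQuot.mkAlgHom_rel ℂ (Rel.dt_ne i j h)

/-- The representation of the Weyl algebra by differential operators. -/
noncomputable def rep (k : ℕ) : Weyl k →ₐ[ℂ] Module.End ℂ (MvPolynomial (Fin k) ℂ) :=
  RingQuot.liftAlgHom ℂ ⟨FreeAlgebra.lift ℂ (fun x => match x with
    | Gen.t j => LinearMap.mulLeft ℂ (MvPolynomial.X j)
    | Gen.d j => ((MvPolynomial.pderiv j : Derivation ℂ (MvPolynomial (Fin k) ℂ)
      (MvPolynomial (Fin k) ℂ)) : Module.End ℂ (MvPolynomial (Fin k) ℂ))), by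
    intro x y h
    induction h with
    | tt i j =>
      refine LinearMap.ext fun f => ?_
      simp [Module.End.mul_apply, mul_left_comm]
    | dd i j =>
      refine LinearMap.ext fun f => ?_
      simp only [map_mul, FreeAlgebra.lift_ι_apply, Module.End.mul_apply]
      have h : ⁅(MvPolynomial.pderiv i : Derivation ℂ (MvPolynomial (Fin k) ℂ)
          (MvPolynomial (Fin k) ℂ)), (MvPolynomial.pderiv j : Derivation ℂ (MvPolynomial (Fin k) ℂ)
          (MvPolynomial (Fin k) ℂ))⁆ = 0 := by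
        apply MvPolynomial.derivation_ext
        intro l
        rw [Derivation.commutator_apply, MvPolynomial.pderiv_X, MvPolynomial.pderiv_X]
        by_cases h1 : j = l <;> by_cases h2 : i = l <;>
          simp [h1, h2, eq_comm]
      have h2 := congrArg (fun D : Derivation ℂ (MvPolynomial (Fin k) ℂ)
        (MvPolynomial (Fin k) ℂ) => D f) h
      exact sub_eq_zero.1 h2
    | dt i =>
      refine LinearMap.ext fun f => ?_
      simp [Module.End.mul_apply, add_comm]
    | dt_ne i j h =>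
      refine LinearMap.ext fun f => ?_
      simp [Module.End.mul_apply, MvPolynomial.pderiv_X_of_ne h.symm]⟩

theorem rep_t {k : ℕ} (j : Fin k) : rep k (t j) = LinearMap.mulLeft ℂ (MvPolynomial.X j) := by
  rw [rep, t, RingQuot.liftAlgHom_mkAlgHom_apply, FreeAlgebra.lift_ι_apply]

theorem rep_d {k : ℕ} (j : Fin k) : rep k (d j) = ((MvPolynomial.pderiv j :
    Derivation ℂ (MvPolynomial (Fin k) ℂ) (MvPolynomial (Fin k) ℂ)) :
      Module.End ℂ (MvPolynomial (Fin k) ℂ)) := by
  rw [rep, d, RingQuot.liftAlgHom_mkAlgHom_apply, FreeAlgebra.lift_ι_apply]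

/-- The generators `t_j` and `∂_j` generate. -/
theorem adjoin_gen (k : ℕ) : Algebra.adjoin ℂ (Set.range (t : Fin k → Weyl k) ∪
    Set.range (d : Fin k → Weyl k)) = ⊤ := by
  rw [eq_top_iff]
  intro x _
  obtain ⟨y, rfl⟩ := RingQuot.mkAlgHom_surjective ℂ (Rel k) x
  induction y using FreeAlgebra.induction with
  | grade0 r => rw [AlgHom.commutes]; exact Subalgebra.algebraMap_mem _ _
  | grade1 x =>
    rcases x with j | j
    · exact Algebra.subset_adjoin (Or.inl ⟨j, rfl⟩)
    · exact Algebra.subset_adjoin (Or.inr ⟨j, rfl⟩)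
  | mul a b ha hb => rw [map_mul]; exact Subalgebra.mul_mem _ (ha trivial) (hb trivial)
  | add a b ha hb => rw [map_add]; exact Subalgebra.add_mem _ (ha trivial) (hb trivial)

/-- The inclusion of the polynomial ring in the Weyl algebra. -/
noncomputable def inc (k : ℕ) : MvPolynomial (Fin k) ℂ →ₐ[ℂ] Weyl k :=
  letI : CommRing (Algebra.adjoin ℂ (Set.range (t : Fin k → Weyl k))) :=
    { (Algebra.adjoin ℂ (Set.range (t : Fin k → Weyl k))).toRing with
      mul_comm := (Algebra.isMulCommutative_adjoin ℂ (by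
        rintro _ ⟨i, rfl⟩ _ ⟨j, rfl⟩
        exact t_comm i j)).is_comm.comm }
  (Algebra.adjoin ℂ (Set.range (t : Fin k → Weyl k))).val.comp
    (MvPolynomial.aeval fun j => ⟨t j, Algebra.subset_adjoin ⟨j, rfl⟩⟩)

theorem inc_X {k : ℕ} (j : Fin k) : inc k (MvPolynomial.X j) = t j := by
  simp [inc]

theorem inc_comm {k : ℕ} (f g : MvPolynomial (Fin k) ℂ) : inc k f * inc k g = inc k g * inc k f := by
  rw [← map_mul, mul_comm, map_mul]

theorem d_inc {k : ℕ} (j : Fin k) (f : MvPolynomial (Fin k) ℂ) :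
    d j * inc k f = inc k f * d j + inc k (MvPolynomial.pderiv j f) := by
  induction f using MvPolynomial.induction_on with
  | C a =>
    rw [← MvPolynomial.algebraMap_eq, AlgHom.commutes, Derivation.map_algebraMap, map_zero, add_zero,
      Algebra.commutes]
  | add p q hp hq => rw [map_add, mul_add, hp, hq, map_add, map_add]; noncomm_ring
  | mul_X p i hp =>
    rw [map_mul, inc_X, ← mul_assoc, hp, Derivation.leibniz, map_add]
    by_cases h : j = i
    · subst h
      rw [MvPolynomial.pderiv_X_self, smul_eq_mul, smul_eq_mul, mul_one, map_mul, inc_X, add_mul,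
        mul_assoc, d_t, ← inc_X, inc_comm (MvPolynomial.X j) (MvPolynomial.pderiv j p)]
      noncomm_ring
    · rw [MvPolynomial.pderiv_X_of_ne (Ne.symm h), smul_eq_mul, smul_eq_mul, mul_zero, map_zero,
        zero_add, map_mul, inc_X, add_mul, mul_assoc, d_t_ne h, ← inc_X,
        inc_comm (MvPolynomial.X i) (MvPolynomial.pderiv j p)]
      noncomm_ring

theorem rep_inc {k : ℕ} (f : MvPolynomial (Fin k) ℂ) : rep k (inc k f) = LinearMap.mulLeft ℂ f := by
  induction f using MvPolynomial.induction_on with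
  | C a =>
    rw [← MvPolynomial.algebraMap_eq, AlgHom.commutes, AlgHom.commutes]
    refine LinearMap.ext fun x => ?_
    simp [Algebra.smul_def]
  | add p q hp hq =>
    rw [map_add, map_add, hp, hq]
    refine LinearMap.ext fun x => ?_
    simp [add_mul]
  | mul_X p i hp =>
    rw [map_mul, map_mul, hp, inc_X, rep_t]
    refine LinearMap.ext fun x => ?_
    simp [Module.End.mul_apply, mul_assoc]

theorem der_sum_apply {A : Type*} [CommRing A] [Algebra ℂ A] {ι : Type*} (s : Finset ι)
    (E : ι → Derivation ℂ A A) (f : A) : (∑ j ∈ s, E j) f = ∑ j ∈ s, E j f := by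
  classical
  induction s using Finset.induction_on with
  | empty => simp
  | insert a s ha ih => rw [Finset.sum_insert ha, Finset.sum_insert ha, Derivation.add_apply, ih]

/-- The vector field of a derivation as an element of the Weyl algebra. -/
noncomputable def vec {k : ℕ} (D : Derivation ℂ (MvPolynomial (Fin k) ℂ) (MvPolynomial (Fin k) ℂ)) :
    Weyl k := ∑ j, inc k (D (MvPolynomial.X j)) * d j

theorem vec_inc {k : ℕ} (D : Derivation ℂ (MvPolynomial (Fin k) ℂ) (MvPolynomial (Fin k) ℂ))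
    (f : MvPolynomial (Fin k) ℂ) : vec D * inc k f = inc k f * vec D + inc k (D f) := by
  have h : D f = ∑ j, D (MvPolynomial.X j) * MvPolynomial.pderiv j f := by
    have h1 : D = ∑ j, D (MvPolynomial.X j) • MvPolynomial.pderiv j := by
      apply MvPolynomial.derivation_ext
      intro i
      rw [der_sum_apply, Finset.sum_eq_single i]
      · simp
      · intro j _ hj
        simp [MvPolynomial.pderiv_X_of_ne hj.symm]
      · intro h; exact absurd (Finset.mem_univ i) h
    conv_lhs => rw [h1]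
    rw [der_sum_apply]
    rfl
  rw [h, map_sum, vec, Finset.sum_mul, Finset.mul_sum, ← Finset.sum_add_distrib]
  refine Finset.sum_congr rfl fun j _ => ?_
  rw [mul_assoc, d_inc, mul_add, ← mul_assoc, ← mul_assoc, inc_comm _ f, map_mul]

theorem vec_lie {k : ℕ} (D E : Derivation ℂ (MvPolynomial (Fin k) ℂ) (MvPolynomial (Fin k) ℂ)) :
    vec ⁅D, E⁆ = vec D * vec E - vec E * vec D := by
  have key : ∀ D E : Derivation ℂ (MvPolynomial (Fin k) ℂ) (MvPolynomial (Fin k) ℂ),
      vec D * vec E = ∑ j, ∑ i, inc k (E (MvPolynomial.X j)) * inc k (D (MvPolynomial.X i)) *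
        (d i * d j) + ∑ j, inc k (D (E (MvPolynomial.X j))) * d j := by
    intro D E
    conv_lhs => rw [show vec E = ∑ j, inc k (E (MvPolynomial.X j)) * d j from rfl]
    rw [Finset.mul_sum, ← Finset.sum_add_distrib]
    refine Finset.sum_congr rfl fun j _ => ?_
    rw [← mul_assoc, vec_inc, add_mul]
    congr 1
    rw [vec, Finset.mul_sum, Finset.sum_mul]
    refine Finset.sum_congr rfl fun i _ => ?_
    simp only [mul_assoc]
  rw [key D E, key E D]
  have hsym : ∑ j, ∑ i, inc k (E (MvPolynomial.X j)) * inc k (D (MvPolynomial.X i)) * (d i * d j) =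
      ∑ j, ∑ i, inc k (D (MvPolynomial.X j)) * inc k (E (MvPolynomial.X i)) * (d i * d j) := by
    rw [Finset.sum_comm]
    refine Finset.sum_congr rfl fun j _ => Finset.sum_congr rfl fun i _ => ?_
    rw [inc_comm, d_comm]
  rw [hsym, add_sub_add_left_eq_sub, ← Finset.sum_sub_distrib, vec]
  refine Finset.sum_congr rfl fun j _ => ?_
  rw [Derivation.commutator_apply, map_sub, sub_mul]

theorem rep_vec {k : ℕ} (D : Derivation ℂ (MvPolynomial (Fin k) ℂ) (MvPolynomial (Fin k) ℂ)) :
    rep k (vec D) = (D : Module.End ℂ (MvPolynomial (Fin k) ℂ)) := by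
  refine LinearMap.ext fun f => ?_
  have h := congrArg (rep k) (vec_inc D f)
  rw [map_mul, map_add, map_mul, rep_inc, rep_inc] at h
  have h1 := congrArg (fun V : Module.End ℂ (MvPolynomial (Fin k) ℂ) => V 1) h
  simp only [Module.End.mul_apply, LinearMap.add_apply, LinearMap.mulLeft_apply, mul_one] at h1
  have h2 : rep k (vec D) 1 = 0 := by
    rw [vec, map_sum, LinearMap.sum_apply]
    refine Finset.sum_eq_zero fun j _ => ?_
    rw [map_mul, rep_d, Module.End.mul_apply]
    simp
  rw [h2, mul_zero, zero_add] at h1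
  exact h1

end Pool.Agent.V1113.WeylPres
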