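import Mathlib

/-!
# Operators commuting like vector fields, and the symmetric square of the line

Core lemmas for the maps from enveloping algebras of Witt type to Weyl algebras.
-/

set_option autoImplicit false
set_option linter.all false

namespace Pool.Agent.V1113.Witt

open Finset

section Leibniz

variable {R : Type*} [Ring R]

theorem iterate_leibniz (D : R →+ R) (hD : ∀ x y, D (x * y) = D x * y + x * D y) (N : ℕ) (x y : R) :
    D^[N] (x * y) = ∑ ij ∈ antidiagonal N, N.choose ij.1 • (D^[ij.1] x * D^[ij.2] y) := by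
  induction N with
  | zero => simp
  | succ N ih =>
    rw [Function.iterate_succ_apply', ih, map_sum,
      Finset.sum_antidiagonal_choose_succ_nsmul (fun i j => D^[i] x * D^[j] y) N]
    rw [← Finset.sum_add_distrib]
    refine Finset.sum_congr rfl fun ij hij => ?_
    have hs : N.choose ij.2 = N.choose ij.1 := by
      have h := mem_antidiagonal.1 hij
      rw [← h, Nat.choose_symm_add]
    rw [map_nsmul, hD, hs, Function.iterate_succ_apply', Function.iterate_succ_apply', nsmul_add,
      add_comm]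

theorem iterate_zero_of_le (D : R →+ R) {m n : ℕ} (h : m ≤ n) {x : R} (hx : D^[m] x = 0) :
    D^[n] x = 0 := by
  obtain ⟨k, rfl⟩ := Nat.exists_eq_add_of_le h
  rw [add_comm, Function.iterate_add_apply, hx, iterate_map_zero]

theorem iterate_mul_zero (D : R →+ R) (hD : ∀ x y, D (x * y) = D x * y + x * D y) {m n : ℕ}
    {x y : R} (hx : D^[m + 1] x = 0) (hy : D^[n + 1] y = 0) : D^[m + n + 1] (x * y) = 0 := by
  rw [iterate_leibniz D hD]
  refine Finset.sum_eq_zero fun ij hij => ?_
  have h := mem_antidiagonal.1 hij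
  rcases Nat.lt_or_ge m ij.1 with h1 | h1
  · rw [iterate_zero_of_le D (Nat.succ_le_of_lt h1) hx, zero_mul, nsmul_zero]
  · rw [iterate_zero_of_le D (by omega : n + 1 ≤ ij.2) hy, mul_zero, nsmul_zero]

theorem iterate_mul_top (D : R →+ R) (hD : ∀ x y, D (x * y) = D x * y + x * D y) {m n : ℕ}
    {x y : R} (hx : D^[m + 1] x = 0) (hy : D^[n + 1] y = 0) :
    D^[m + n] (x * y) = (m + n).choose m • (D^[m] x * D^[n] y) := by
  rw [iterate_leibniz D hD, Finset.sum_eq_single (m, n)]
  · rintro ⟨i, j⟩ hij hne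
    have h := mem_antidiagonal.1 hij
    simp only at h ⊢
    rcases lt_trichotomy i m with h1 | h1 | h1
    · rw [iterate_zero_of_le D (by omega : n + 1 ≤ j) hy, mul_zero, nsmul_zero]
    · exact absurd (by ext <;> simp <;> omega) hne
    · rw [iterate_zero_of_le D (Nat.succ_le_of_lt h1) hx, zero_mul, nsmul_zero]
  · intro h
    exact absurd (mem_antidiagonal.2 (rfl : (m, n).1 + (m, n).2 = m + n)) h

/-- The top component of a cube. -/
theorem iterate_cube_top (D : R →+ R) (hD : ∀ x y, D (x * y) = D x * y + x * D y) {m : ℕ}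
    {x : R} (hx : D^[m + 1] x = 0) :
    ∃ c : ℕ, c ≠ 0 ∧ D^[3 * m] (x ^ 3) = c • (D^[m] x) ^ 3 := by
  have h2 : D^[m + m] (x * x) = (m + m).choose m • (D^[m] x * D^[m] x) := iterate_mul_top D hD hx hx
  have h2' : D^[(m + m) + 1] (x * x) = 0 := iterate_mul_zero D hD hx hx
  have h3 := iterate_mul_top D hD h2' hx
  refine ⟨(m + m + m).choose (m + m) * (m + m).choose m, ?_, ?_⟩
  · exact Nat.mul_ne_zero (Nat.choose_pos (by omega)).ne' (Nat.choose_pos (by omega)).ne'
  · rw [show 3 * m = m + m + m by ring, show x ^ 3 = x * x * x by rw [pow_succ, pow_two], h3, h2,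
      smul_mul_assoc, smul_smul, show (D^[m] x) ^ 3 = D^[m] x * D^[m] x * D^[m] x by
        rw [pow_succ, pow_two]]

/-- The commutator with `a` as an additive map. -/
def ad (a : R) : R →+ R := AddMonoidHom.mulLeft a - AddMonoidHom.mulRight a

theorem ad_apply (a x : R) : ad a x = a * x - x * a := rfl

theorem ad_mul (a x y : R) : ad a (x * y) = ad a x * y + x * ad a y := by
  simp only [ad_apply]; noncomm_ring

theorem ad_comm {a b : R} (h : a * b = b * a) (x : R) : ad a (ad b x) = ad b (ad a x) := by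
  simp only [ad_apply]
  have : a * (b * x - x * b) - (b * x - x * b) * a - (b * (a * x - x * a) - (a * x - x * a) * b)
      = (a * b - b * a) * x - x * (a * b - b * a) := by noncomm_ring
  rw [← sub_eq_zero, this, h]; simp

theorem ad_iterate_comm {a b : R} (h : a * b = b * a) (m : ℕ) (x : R) :
    ad a ((ad b)^[m] x) = (ad b)^[m] (ad a x) := by
  induction m generalizing x with
  | zero => rfl
  | succ m ih => rw [Function.iterate_succ_apply, ih, ad_comm h, ← Function.iterate_succ_apply]

theorem exists_top (D : R →+ R) {x : R} (hx : x ≠ 0) (hN : ∃ N, D^[N] x = 0) :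
    ∃ m, D^[m] x ≠ 0 ∧ D^[m + 1] x = 0 := by
  classical
  have h := Nat.find_spec hN
  have hpos : Nat.find hN ≠ 0 := by
    intro h0; rw [h0] at h; exact hx h
  obtain ⟨m, hm⟩ := Nat.exists_eq_succ_of_ne_zero hpos
  refine ⟨m, fun h0 => Nat.find_min hN (by omega) h0, ?_⟩
  rw [Nat.succ_eq_add_one] at hm
  rw [← hm]; exact h

end Leibniz

section Operators

variable {L : Type*} [CommRing L] [Algebra ℂ L]

/-- Multiplication by `f` as an operator. -/
abbrev M (f : L) : Module.End ℂ L := LinearMap.mulLeft ℂ f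

theorem eq_zero_of_nsmul {c : ℕ} (hc : c ≠ 0) {V : Module.End ℂ L} (h : c • V = 0) : V = 0 := by
  have h1 : (c : ℂ) • V = 0 := by rw [Nat.cast_smul_eq_nsmul, h]
  have h2 : (c : ℂ) ≠ 0 := Nat.cast_ne_zero.2 hc
  calc V = (c : ℂ)⁻¹ • ((c : ℂ) • V) := by rw [smul_smul, inv_mul_cancel₀ h2, one_smul]
    _ = 0 := by rw [h1, smul_zero]

theorem M_comm (f g : L) : M f * M g = M g * M f := by
  ext x; simp [mul_left_comm]

theorem lie_M (X : Derivation ℂ L L) (f : L) :
    (X : Module.End ℂ L) * M f - M f * (X : Module.End ℂ L) = M (X f) := by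
  ext x
  simp [Module.End.mul_apply, mul_comm]

theorem ad_M_derivation (X : Derivation ℂ L L) (f : L) :
    ad (M f) (X : Module.End ℂ L) = - M (X f) := by
  rw [ad_apply, ← lie_M]; abel

theorem ad_M_M (f g : L) : ad (M f) (M g) = 0 := by
  rw [ad_apply, M_comm, sub_self]

theorem ad_sq_derivation (X : Derivation ℂ L L) (f : L) :
    (ad (M f))^[1 + 1] (X : Module.End ℂ L) = 0 := by
  change ad (M f) (ad (M f) (X : Module.End ℂ L)) = 0
  rw [ad_M_derivation, map_neg, ad_M_M, neg_zero]

/-- The first step of the main argument: an operator `T` with `[X, T] = T ^ 3` for a vector field `X`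
commutes with the multiplication by `f`. -/
theorem commute_of_cube [IsDomain L] {f g : L}
    (hcomm : ∀ V : Module.End ℂ L, ad (M f) V = 0 → ad (M g) V = 0 → ∃ h, V = M h)
    {T : Module.End ℂ L} (hnf : ∃ N, (ad (M f))^[N] T = 0)
    (hng : ∀ m, ∃ N, (ad (M g))^[N] ((ad (M f))^[m] T) = 0)
    (X : Derivation ℂ L L)
    (hX : (X : Module.End ℂ L) * T - T * (X : Module.End ℂ L) = T ^ 3) :
    ad (M f) T = 0 := by
  by_cases hT : T = 0
  · rw [hT, map_zero]
  obtain ⟨m, hm, hm'⟩ := exists_top _ hT hnf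
  rcases Nat.eq_zero_or_pos m with rfl | hpos
  · simpa using hm'
  exfalso
  obtain ⟨n, hn, hn'⟩ := exists_top _ hm (hng m)
  obtain ⟨h, hh⟩ := hcomm ((ad (M g))^[n] ((ad (M f))^[m] T))
    (by rw [ad_iterate_comm (M_comm f g), ← Function.iterate_succ_apply' (ad (M f)), hm',
          iterate_map_zero])
    (by rw [← Function.iterate_succ_apply' (ad (M g)), hn'])
  have hh0 : h ≠ 0 := by
    rintro rfl
    rw [hh] at hn
    exact hn (by ext; simp)
  -- the cube of the second top component does not vanish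
  obtain ⟨c, hc, hcube⟩ := iterate_cube_top (ad (M g)) (ad_mul _) hn'
  obtain ⟨c', hc', hcube'⟩ := iterate_cube_top (ad (M f)) (ad_mul _) hm'
  have hzero : (ad (M f))^[3 * m] (T ^ 3) = 0 := by
    rw [← hX]
    have hx2 := ad_sq_derivation X f
    have h1 : (ad (M f))^[1 + m + 1] ((X : Module.End ℂ L) * T) = 0 :=
      iterate_mul_zero _ (ad_mul _) hx2 hm'
    have h2 : (ad (M f))^[m + 1 + 1] (T * (X : Module.End ℂ L)) = 0 :=
      iterate_mul_zero _ (ad_mul _) hm' hx2
    have h3 : (ad (M f))^[m + 2] ((X : Module.End ℂ L) * T - T * (X : Module.End ℂ L)) = 0 := by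
      rw [iterate_map_sub, show m + 2 = 1 + m + 1 by ring, h1, show 1 + m + 1 = m + 1 + 1 by ring,
        h2, sub_zero]
    exact iterate_zero_of_le _ (by omega) h3
  rw [hcube'] at hzero
  have hU : ((ad (M f))^[m] T) ^ 3 = 0 := eq_zero_of_nsmul hc' hzero
  rw [hU, iterate_map_zero, hh] at hcube
  have hV : (M h) ^ 3 = 0 := eq_zero_of_nsmul hc hcube.symm
  have h1 : h ^ 3 = 0 := by
    have := congrArg (fun V : Module.End ℂ L => V 1) hV
    simpa [pow_succ, mul_assoc] using this
  exact hh0 (pow_eq_zero_iff (by norm_num) |>.1 h1)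

/-- Operators all of whose commutators with multiplications are nilpotent form a subalgebra. -/
def nilSub (L : Type*) [CommRing L] [Algebra ℂ L] : Subalgebra ℂ (Module.End ℂ L) where
  carrier := {V | ∀ f : L, ∃ N, (ad (M f))^[N + 1] V = 0}
  mul_mem' := by
    intro a b ha hb f
    obtain ⟨m, hm⟩ := ha f
    obtain ⟨n, hn⟩ := hb f
    exact ⟨m + n, iterate_mul_zero _ (ad_mul _) hm hn⟩
  add_mem' := by
    intro a b ha hb f
    obtain ⟨m, hm⟩ := ha f
    obtain ⟨n, hn⟩ := hb f
    refine ⟨max m n, ?_⟩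
    rw [iterate_map_add, iterate_zero_of_le _ (by omega : m + 1 ≤ max m n + 1) hm,
      iterate_zero_of_le _ (by omega : n + 1 ≤ max m n + 1) hn, add_zero]
  algebraMap_mem' := by
    intro r f
    refine ⟨0, ?_⟩
    change ad (M f) (algebraMap ℂ (Module.End ℂ L) r) = 0
    rw [ad_apply, Algebra.commutes, sub_self]

theorem M_mem_nilSub (g : L) : M g ∈ nilSub L := fun f => ⟨0, ad_M_M f g⟩

theorem derivation_mem_nilSub (X : Derivation ℂ L L) : (X : Module.End ℂ L) ∈ nilSub L :=
  fun f => ⟨1, ad_sq_derivation X f⟩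

theorem iterate_mem_nilSub {T : Module.End ℂ L} (hT : T ∈ nilSub L) (f : L) (m : ℕ) :
    (ad (M f))^[m] T ∈ nilSub L := by
  induction m with
  | zero => exact hT
  | succ m ih =>
    rw [Function.iterate_succ_apply', ad_apply]
    exact (nilSub L).sub_mem ((nilSub L).mul_mem (M_mem_nilSub f) ih)
      ((nilSub L).mul_mem ih (M_mem_nilSub f))

/-- The core statement: an operator `T` of finite order with `[X k, T] = T ^ k` for the vector
fields `X k` on the symmetric square of the line is multiplication by a root of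
`x ^ 2 - s x + p`. -/
theorem core [IsDomain L] {s p : L}
    (hcomm : ∀ V : Module.End ℂ L, ad (M s) V = 0 → ad (M p) V = 0 → ∃ h, V = M h)
    {T : Module.End ℂ L} (hT : T ∈ nilSub L) (X : ℕ → Derivation ℂ L L)
    (hX : ∀ k, (X k : Module.End ℂ L) * T - T * (X k : Module.End ℂ L) = T ^ k)
    (hrel : ∀ f, X 2 f = s * X 1 f - p * X 0 f) :
    ∃ g : L, g ^ 2 - s * g + p = 0 := by
  have hs : ad (M s) T = 0 := commute_of_cube hcomm
    ((hT s).imp' (fun N => N + 1) fun N hN => hN)
    (fun m => ((iterate_mem_nilSub hT s m) p).imp' (fun N => N + 1) fun N hN => hN) (X 3) (hX 3)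
  have hp : ad (M p) T = 0 := commute_of_cube (fun V h1 h2 => hcomm V h2 h1)
    ((hT p).imp' (fun N => N + 1) fun N hN => hN)
    (fun m => ((iterate_mem_nilSub hT p m) s).imp' (fun N => N + 1) fun N hN => hN) (X 3) (hX 3)
  obtain ⟨g, rfl⟩ := hcomm T hs hp
  refine ⟨g, ?_⟩
  have key : ∀ k, X k g = g ^ k := by
    intro k
    have h := hX k
    rw [lie_M] at h
    have := congrArg (fun V : Module.End ℂ L => V 1) h
    have hpow : ∀ j : ℕ, ((M g) ^ j) 1 = g ^ j := by
      intro j
      induction j with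
      | zero => simp
      | succ j ih => rw [pow_succ', Module.End.mul_apply, ih, pow_succ']; simp
    simpa [hpow] using this
  have h := hrel g
  rw [key, key, key] at h
  rw [h]; ring

end Operators

end Pool.Agent.V1113.Witt
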