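import Mathlib

/-!
# Vector fields on the symmetric square

`K = L[x] / (x ^ 2 - s x + p)` over a commutative algebra `L` with two derivations `D0`, `D1` such
that `D0 s = 2`, `D0 p = s`, `D1 s = s`, `D1 p = 2 p`. An element `c = a + b x` of `K` gives the
derivation `a D0 + b D1` of `L`, which extends to `K` with `x` sent to `c`.
-/

set_option autoImplicit false
set_option linter.all false

namespace Pool.Agent.V1113.Witt

section Sym

variable {L : Type*} [CommRing L] [Algebra ℂ L] (s p : L)

/-- The quadratic extension whose generator is a root of `x ^ 2 - s x + p`. -/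
abbrev K : Type _ := QuadraticAlgebra L (-p) s

variable {s p}
variable (D0 D1 : Derivation ℂ L L)

/-- The vector field on the symmetric square attached to an element of `K`. -/
def vf (c : K s p) : Derivation ℂ L L := c.re • D0 + c.im • D1

theorem vf_apply (c : K s p) (x : L) : vf D0 D1 c x = c.re * D0 x + c.im * D1 x := rfl

theorem vf_add (c d : K s p) : vf D0 D1 (c + d) = vf D0 D1 c + vf D0 D1 d := by
  ext x; simp [vf_apply]; ring

theorem vf_smul (r : ℂ) (c : K s p) : vf D0 D1 (r • c) = r • vf D0 D1 c := by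
  ext x; simp [vf_apply]

/-- The generator. -/
def om : K s p := ⟨0, 1⟩

omit [Algebra ℂ L] in
theorem om_sq : (om : K s p) * om = ⟨-p, s⟩ := by
  ext <;> simp [om]

/-- The relation between the vector fields: `x ^ 2 - s x + p = 0`. -/
theorem vf_rel (c : K s p) (f : L) :
    vf D0 D1 (om * (om * c)) f = s * vf D0 D1 (om * c) f - p * vf D0 D1 c f := by
  simp [vf_apply, om]; ring

variable (h0s : D0 s = 2) (h0p : D0 p = s) (h1s : D1 s = s) (h1p : D1 p = 2 * p)

/-- The extension of `vf c` to `K`. -/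
def lift (h0s : D0 s = 2) (h0p : D0 p = s) (h1s : D1 s = s) (h1p : D1 p = 2 * p) (c : K s p) :
    Derivation ℂ (K s p) (K s p) where
  toFun z := ⟨vf D0 D1 c z.re + z.im * c.re, vf D0 D1 c z.im + z.im * c.im⟩
  map_add' x y := by ext <;> simp <;> ring
  map_smul' r x := by ext <;> simp
  map_one_eq_zero' := by ext <;> simp [QuadraticAlgebra.re_one, QuadraticAlgebra.im_one]
  leibniz' x y := by
    ext <;> simp [vf_apply, h0s, h0p, h1s, h1p] <;> ring

theorem lift_re (c z : K s p) :
    (lift D0 D1 h0s h0p h1s h1p c z).re = vf D0 D1 c z.re + z.im * c.re := rfl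

theorem lift_im (c z : K s p) :
    (lift D0 D1 h0s h0p h1s h1p c z).im = vf D0 D1 c z.im + z.im * c.im := rfl

theorem lift_om (c : K s p) : lift D0 D1 h0s h0p h1s h1p c om = c := by
  ext <;> simp [lift_re, lift_im, om]

include h0s h0p h1s h1p in
/-- If a derivation `E` of `K` restricts to a derivation `E0` of `L` then the values of `E0` on `s`
and `p` are those of `vf (E x)`. -/
theorem values_of_lift (E : Derivation ℂ (K s p) (K s p)) (E0 : Derivation ℂ L L)
    (hE : ∀ a b : L, E ⟨a, b⟩ = ⟨E0 a, E0 b⟩ + b • E om) :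
    E0 s = vf D0 D1 (E om) s ∧ E0 p = vf D0 D1 (E om) p := by
  have h1 : E (om * om) = om • E om + om • E om := E.leibniz om om
  rw [om_sq, hE] at h1
  have hre := congrArg QuadraticAlgebra.re h1
  have him := congrArg QuadraticAlgebra.im h1
  simp [om] at hre him
  have hre' : -E0 p + s * (E ⟨0, 1⟩).re = -(p * (E ⟨0, 1⟩).im) + -(p * (E ⟨0, 1⟩).im) := hre
  have him' : E0 s + s * (E ⟨0, 1⟩).im
      = (E ⟨0, 1⟩).re + s * (E ⟨0, 1⟩).im + ((E ⟨0, 1⟩).re + s * (E ⟨0, 1⟩).im) := him
  simp only [vf_apply, h0s, h0p, h1s, h1p, om]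
  constructor
  · linear_combination him'
  · linear_combination -hre'

/-- The bracket of two vector fields. -/
theorem vf_lie (hext : ∀ D D' : Derivation ℂ L L, D s = D' s → D p = D' p → D = D') (c d : K s p) :
    ⁅vf D0 D1 c, vf D0 D1 d⁆ = vf D0 D1
      (lift D0 D1 h0s h0p h1s h1p c d - lift D0 D1 h0s h0p h1s h1p d c) := by
  have hE : ⁅lift D0 D1 h0s h0p h1s h1p c, lift D0 D1 h0s h0p h1s h1p d⁆ om =
      lift D0 D1 h0s h0p h1s h1p c d - lift D0 D1 h0s h0p h1s h1p d c := by
    rw [Derivation.commutator_apply, lift_om, lift_om]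
  have h := values_of_lift D0 D1 h0s h0p h1s h1p
    ⁅lift D0 D1 h0s h0p h1s h1p c, lift D0 D1 h0s h0p h1s h1p d⁆ ⁅vf D0 D1 c, vf D0 D1 d⁆ (by
      intro a b
      rw [hE]
      ext
      · simp [lift_re, lift_im, Derivation.commutator_apply]; ring
      · simp [lift_re, lift_im, Derivation.commutator_apply]; ring)
  rw [hE] at h
  exact hext _ _ h.1 h.2

end Sym

end Pool.Agent.V1113.Witt
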