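import Mathlib

set_option autoImplicit false
set_option linter.all false

namespace Pool.Agent.V1113.MonoMax

open Matrix

variable {F : Type} [Field F]

/-- The matrix with given entries. -/
noncomputable def mk (a b c d : F) (h : a * d - b * c ≠ 0) : GL (Fin 2) F :=
  Matrix.GeneralLinearGroup.mkOfDetNeZero !![a, b; c, d] (by rwa [Matrix.det_fin_two_of])

theorem mk_val (a b c d : F) (h : a * d - b * c ≠ 0) :
    ((mk a b c d h : GL (Fin 2) F) : Matrix (Fin 2) (Fin 2) F) = !![a, b; c, d] := rfl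

theorem det_ne (g : GL (Fin 2) F) : g 0 0 * g 1 1 - g 0 1 * g 1 0 ≠ 0 := by
  have h := g.isUnit.map Matrix.detMonoidHom
  have h1 := h.ne_zero
  change Matrix.det (g : Matrix (Fin 2) (Fin 2) F) ≠ 0 at h1
  rwa [Matrix.det_fin_two] at h1

theorem eq_mk (g : GL (Fin 2) F) : g = mk (g 0 0) (g 0 1) (g 1 0) (g 1 1) (det_ne g) := by
  apply Units.ext
  rw [mk_val]
  exact Matrix.eta_fin_two _

theorem mk_mul {a b c d a' b' c' d' : F} (h : a * d - b * c ≠ 0) (h' : a' * d' - b' * c' ≠ 0)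
    (h'' : (a * a' + b * c') * (c * b' + d * d') - (a * b' + b * d') * (c * a' + d * c') ≠ 0) :
    mk a b c d h * mk a' b' c' d' h' =
      mk (a * a' + b * c') (a * b' + b * d') (c * a' + d * c') (c * b' + d * d') h'' := by
  apply Units.ext
  rw [Units.val_mul, mk_val, mk_val, mk_val]
  ext i j
  fin_cases i <;> fin_cases j <;> simp [Matrix.mul_apply, Fin.sum_univ_two]

theorem mk_mul' {a b c d a' b' c' d' : F} (h : a * d - b * c ≠ 0) (h' : a' * d' - b' * c' ≠ 0) :
    ∃ h'', mk a b c d h * mk a' b' c' d' h' =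
      mk (a * a' + b * c') (a * b' + b * d') (c * a' + d * c') (c * b' + d * d') h'' := by
  have h'' : (a * a' + b * c') * (c * b' + d * d') - (a * b' + b * d') * (c * a' + d * c') ≠ 0 := by
    have : (a * a' + b * c') * (c * b' + d * d') - (a * b' + b * d') * (c * a' + d * c') =
      (a * d - b * c) * (a' * d' - b' * c') := by ring
    rw [this]
    exact mul_ne_zero h h'
  exact ⟨h'', mk_mul h h' h''⟩

/-- The monomial matrices. -/
def mono (g : GL (Fin 2) F) : Prop := (g 0 1 = 0 ∧ g 1 0 = 0) ∨ (g 0 0 = 0 ∧ g 1 1 = 0)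

/-- The subgroup of monomial matrices. -/
def HH (F : Type) [Field F] : Subgroup (GL (Fin 2) F) where
  carrier := {g | mono g}
  one_mem' := by left; simp
  mul_mem' := by
    intro g h hg hh
    have e : ∀ i j, (g * h) i j = g i 0 * h 0 j + g i 1 * h 1 j := by
      intro i j
      rw [Units.val_mul, Matrix.mul_apply, Fin.sum_univ_two]
    rcases hg with ⟨h1, h2⟩ | ⟨h1, h2⟩ <;> rcases hh with ⟨h3, h4⟩ | ⟨h3, h4⟩
    · left; simp only [e, h1, h2, h3, h4]; simp
    · right; simp only [e, h1, h2, h3, h4]; simp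
    · right; simp only [e, h1, h2, h3, h4]; simp
    · left; simp only [e, h1, h2, h3, h4]; simp
  inv_mem' := by
    intro g hg
    have hd := det_ne g
    have e : ∀ i j, g i 0 * (g⁻¹ : GL (Fin 2) F) 0 j + g i 1 * (g⁻¹ : GL (Fin 2) F) 1 j =
        (1 : Matrix (Fin 2) (Fin 2) F) i j := by
      intro i j
      have h1 : (g * g⁻¹ : GL (Fin 2) F) i j = (1 : GL (Fin 2) F) i j := by rw [mul_inv_cancel]
      rw [Units.val_mul, Matrix.mul_apply, Fin.sum_univ_two] at h1
      exact h1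
    have e01 := e 0 1
    have e10 := e 1 0
    have e00 := e 0 0
    have e11 := e 1 1
    simp only [Matrix.one_apply_ne (show (0 : Fin 2) ≠ 1 by decide), Matrix.one_apply_eq,
      Matrix.one_apply_ne (show (1 : Fin 2) ≠ 0 by decide)] at e01 e10 e00 e11
    rcases hg with ⟨h1, h2⟩ | ⟨h1, h2⟩
    · left
      rw [h1, h2] at hd
      rw [h1] at e01
      rw [h2] at e10
      have h3 : g 0 0 ≠ 0 := by rintro h; apply hd; rw [h]; ring
      have h4 : g 1 1 ≠ 0 := by rintro h; apply hd; rw [h]; ring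
      constructor
      · have : g 0 0 * (g⁻¹ : GL (Fin 2) F) 0 1 = 0 := by linear_combination e01
        exact (mul_eq_zero.1 this).resolve_left h3
      · have : g 1 1 * (g⁻¹ : GL (Fin 2) F) 1 0 = 0 := by linear_combination e10
        exact (mul_eq_zero.1 this).resolve_left h4
    · right
      rw [h1, h2] at hd
      rw [h1] at e01
      rw [h2] at e10
      have h3 : g 0 1 ≠ 0 := by rintro h; apply hd; rw [h]; ring
      have h4 : g 1 0 ≠ 0 := by rintro h; apply hd; rw [h]; ring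
      constructor
      · have : g 1 0 * (g⁻¹ : GL (Fin 2) F) 0 0 = 0 := by linear_combination e10
        exact (mul_eq_zero.1 this).resolve_left h4
      · have : g 0 1 * (g⁻¹ : GL (Fin 2) F) 1 1 = 0 := by linear_combination e01
        exact (mul_eq_zero.1 this).resolve_left h3

theorem mem_HH (g : GL (Fin 2) F) : g ∈ HH F ↔ mono g := Iff.rfl

theorem diag_mem {a d : F} (h : a * d - 0 * 0 ≠ 0) : mk a 0 0 d h ∈ HH F := Or.inl ⟨rfl, rfl⟩
theorem swap_mem {b c : F} (h : 0 * 0 - b * c ≠ 0) : mk 0 b c 0 h ∈ HH F := Or.inr ⟨rfl, rfl⟩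

theorem mk_congr {a b c d a' b' c' d' : F} (h : a * d - b * c ≠ 0) (ha : a = a') (hb : b = b')
    (hc : c = c') (hd : d = d') : ∃ h', mk a b c d h = mk a' b' c' d' h' := by
  subst ha hb hc hd
  exact ⟨h, rfl⟩

theorem mul_mem' {K : Subgroup (GL (Fin 2) F)} {a b c d a' b' c' d' : F} {h : a * d - b * c ≠ 0}
    {h' : a' * d' - b' * c' ≠ 0} (hm : mk a b c d h ∈ K) (hm' : mk a' b' c' d' h' ∈ K)
    (p q r s : F) (hp : a * a' + b * c' = p) (hq : a * b' + b * d' = q) (hr : c * a' + d * c' = r)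
    (hs : c * b' + d * d' = s) : ∃ h'', mk p q r s h'' ∈ K := by
  obtain ⟨h1, e1⟩ := mk_mul' h h'
  obtain ⟨h2, e2⟩ := mk_congr h1 hp hq hr hs
  refine ⟨h2, ?_⟩
  rw [← e2, ← e1]
  exact K.mul_mem hm hm'

theorem top_of_upper {K : Subgroup (GL (Fin 2) F)} (hle : HH F ≤ K) {a b d : F} (hb : b ≠ 0)
    {h : a * d - b * 0 ≠ 0} (hm : mk a b 0 d h ∈ K) : K = ⊤ := by
  have ha : a ≠ 0 := by rintro rfl; apply h; ring
  have hd : d ≠ 0 := by rintro rfl; apply h; ring
  have hD : ∀ (a d : F) (h : a * d - 0 * 0 ≠ 0), mk a 0 0 d h ∈ K := fun a d h => hle (diag_mem h)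
  have hS : mk 0 1 1 (0 : F) (by norm_num) ∈ K := hle (swap_mem _)
  -- upper unipotents
  have hU : ∀ s : F, ∃ h', mk 1 s 0 1 h' ∈ K := by
    intro s
    by_cases hs : s = 0
    · subst hs
      exact ⟨by norm_num, hD 1 1 (by norm_num)⟩
    · obtain ⟨h1, e1⟩ := mul_mem' (hD 1 (b / (s * d)) (by
        rw [one_mul, mul_zero, sub_zero]; exact div_ne_zero hb (mul_ne_zero hs hd))) hm
        a b 0 (b / s) (by ring) (by ring) (by ring) (by field_simp; ring)
      obtain ⟨h2, e2⟩ := mul_mem' e1 (hD (1 / a) (s / b) (by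
        rw [mul_zero, sub_zero]; exact mul_ne_zero (one_div_ne_zero ha) (div_ne_zero hs hb)))
        1 s 0 1 (by field_simp; ring) (by field_simp; ring) (by ring) (by field_simp; ring)
      exact ⟨h2, e2⟩
  have hL : ∀ s : F, ∃ h', mk 1 0 s 1 h' ∈ K := by
    intro s
    obtain ⟨h0, e0⟩ := hU s
    obtain ⟨h1, e1⟩ := mul_mem' hS e0 0 1 1 s (by ring) (by ring) (by ring) (by ring)
    exact mul_mem' e1 hS 1 0 s 1 (by ring) (by ring) (by ring) (by ring)
  have key : ∀ (p q r s : F) (h : p * s - q * r ≠ 0), p ≠ 0 → mk p q r s h ∈ K := by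
    intro p q r s h hp
    obtain ⟨h1, e1⟩ := hL (r / p)
    obtain ⟨h2, e2⟩ := hU (q / p)
    obtain ⟨h3, e3⟩ := mul_mem' e1 (hD p (s - q * r / p) (by
      rw [mul_zero, sub_zero, mul_sub, mul_div_cancel₀ _ hp]; exact h)) p 0 r (s - q * r / p)
      (by ring) (by ring) (by field_simp; ring) (by ring)
    obtain ⟨h4, e4⟩ := mul_mem' e3 e2 p q r s (by ring) (by field_simp; ring) (by ring)
      (by field_simp; ring)
    exact e4
  rw [eq_top_iff]
  rintro g -
  rw [eq_mk g]
  by_cases hp : g 0 0 = 0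
  · have hd := det_ne g
    have hr : g 1 0 ≠ 0 := by
      intro hr; apply hd; rw [hp, hr]; ring
    have h1 : g 1 0 * g 0 1 - g 1 1 * g 0 0 ≠ 0 := by
      intro h; apply hd; linear_combination -h
    obtain ⟨h2, e2⟩ := mul_mem' hS (key (g 1 0) (g 1 1) (g 0 0) (g 0 1) h1 hr)
      (g 0 0) (g 0 1) (g 1 0) (g 1 1) (by ring) (by ring) (by ring) (by ring)
    exact e2
  · exact key _ _ _ _ _ hp

variable [CharP F 2]

theorem isCoatom : IsCoatom (HH F) := by
  constructor
  · intro h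
    have h1 : mk 1 1 0 (1 : F) (by norm_num) ∈ HH F := by rw [h]; trivial
    rcases h1 with ⟨h2, _⟩ | ⟨h2, _⟩
    · exact one_ne_zero (α := F) h2
    · exact one_ne_zero (α := F) h2
  intro K hK
  have hle : HH F ≤ K := hK.le
  obtain ⟨g, hgK, hgH⟩ := SetLike.exists_of_lt hK
  have hS : mk 0 1 1 (0 : F) (by norm_num) ∈ K := hle (swap_mem _)
  suffices H : ∀ (a b c d : F) (hdet : a * d - b * c ≠ 0), mk a b c d hdet ∈ K →
      ¬ ((b = 0 ∧ c = 0) ∨ (a = 0 ∧ d = 0)) → K = ⊤ by
    rw [eq_mk g] at hgK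
    exact H _ _ _ _ _ hgK hgH
  clear hgK hgH g
  intro a b c d hdet hgK hgH
  push Not at hgH
  obtain ⟨hg1, hg2⟩ := hgH
  -- the case of a zero in the first position
  have caseA : ∀ (b c d : F) (h : 0 * d - b * c ≠ 0), d ≠ 0 → mk 0 b c d h ∈ K → K = ⊤ := by
    intro b c d h hd hm
    obtain ⟨h1, e1⟩ := mul_mem' hS hm c d 0 b (by ring) (by ring) (by ring) (by ring)
    exact top_of_upper hle hd e1
  by_cases hc : c = 0
  · subst hc
    exact top_of_upper hle (fun hb => hg1 hb rfl) hgK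
  by_cases hb : b = 0
  · subst hb
    obtain ⟨h1, e1⟩ := mul_mem' hS hgK c d a 0 (by ring) (by ring) (by ring) (by ring)
    obtain ⟨h2, e2⟩ := mul_mem' e1 hS d c 0 a (by ring) (by ring) (by ring) (by ring)
    exact top_of_upper hle hc e2
  by_cases ha : a = 0
  · subst ha
    exact caseA b c d hdet (hg2 rfl) hgK
  by_cases hd : d = 0
  · subst hd
    obtain ⟨h1, e1⟩ := mul_mem' hgK hS b a 0 c (by ring) (by ring) (by ring) (by ring)
    exact top_of_upper hle ha e1
  · obtain ⟨h1, e1⟩ := mul_mem' hgK (hle (diag_mem (a := b * c) (d := a * a) (by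
      rw [mul_zero, sub_zero]; exact mul_ne_zero (mul_ne_zero hb hc) (mul_ne_zero ha ha))))
      (a * (b * c)) (b * (a * a)) (c * (b * c)) (d * (a * a)) (by ring) (by ring) (by ring) (by ring)
    have h2 : (2 : F) = 0 := CharP.cast_eq_zero F 2
    obtain ⟨h3, e3⟩ := mul_mem' e1 hgK 0 (a * (b * c) * b + b * (a * a) * d)
      (c * (b * c) * a + d * (a * a) * c) (c * (b * c) * b + d * (a * a) * d)
      (by linear_combination (a * a * b * c) * h2) rfl rfl rfl
    refine caseA _ _ _ h3 ?_ e3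
    have : c * (b * c) * b + d * (a * a) * d = (a * d - b * c) * (a * d - b * c) := by
      linear_combination (a * d * b * c) * h2
    rw [this]
    exact mul_ne_zero hdet hdet

end Pool.Agent.V1113.MonoMax
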