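import Mathlib

/-!
# Dot-bracket superalgebras, Kantor doubles and Jordan supermodules

Superspaces over a field of characteristic different from `2` are encoded by their parity operator
`σ`, the linear involution that is `1` on the even part and `-1` on the odd part. All operations are
plain functions, and the structures say which of them are linear and even.
-/

set_option autoImplicit false
set_option linter.all false

namespace Pool.Agent.V1113.Kan

section Defs

variable (F : Type*) [Field F]

/-- `v` is homogeneous of parity `i` for the parity operator `σ`. -/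
def Homog {V : Type*} [AddCommGroup V] [Module F V] (σ : V → V) (i : Fin 2) (v : V) : Prop :=
  σ v = (-1 : F) ^ (i : ℕ) • v

/-- `σ` is a parity operator: it is linear and an involution. -/
structure IsParity {V : Type*} [AddCommGroup V] [Module F V] (σ : V → V) : Prop where
  linear : IsLinearMap F σ
  invol : ∀ v, σ (σ v) = v

/-- `m` is an even bilinear operation on the superspace with parity operator `σ`. -/
structure IsEvenBilinear {V : Type*} [AddCommGroup V] [Module F V] (σ : V → V) (m : V → V → V) :
    Prop where
  left : ∀ w, IsLinearMap F fun v => m v w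
  right : ∀ v, IsLinearMap F fun w => m v w
  even : ∀ v w, σ (m v w) = m (σ v) (σ w)

/-- The superspace `J` with parity operator `σ` and product `m` is a Jordan superalgebra. -/
structure IsJordan {J : Type*} [AddCommGroup J] [Module F J] (σ : J → J) (m : J → J → J) :
    Prop where
  parity : IsParity F σ
  bilinear : IsEvenBilinear F σ m
  comm : ∀ (i j : Fin 2) (a b : J), Homog F σ i a → Homog F σ j b →
    m a b = (-1 : F) ^ ((i : ℕ) * j) • m b a
  jordan : ∀ (i j k l : Fin 2) (a b c d : J), Homog F σ i a → Homog F σ j b → Homog F σ k c →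
    Homog F σ l d →
    m (m a b) (m c d) + (-1 : F) ^ ((j : ℕ) * k) • m (m a c) (m b d) +
        (-1 : F) ^ ((l : ℕ) * (j + k)) • m (m a d) (m b c) =
      m (m (m a b) c) d + (-1 : F) ^ ((j : ℕ) * k + j * l + k * l) • m (m (m a d) c) b +
        (-1 : F) ^ ((i : ℕ) * (j + k + l) + k * l) • m (m (m b d) c) a

/-- The superspace `A` with parity operator `σ`, product `dot` and bracket `br` is a dot-bracket
superalgebra. -/
structure IsDotBracket {A : Type*} [AddCommGroup A] [Module F A] (σ : A → A) (dot br : A → A → A) :
    Prop where
  parity : IsParity F σ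
  dot_bilinear : IsEvenBilinear F σ dot
  br_bilinear : IsEvenBilinear F σ br
  dot_assoc : ∀ a b c, dot (dot a b) c = dot a (dot b c)
  dot_comm : ∀ (i j : Fin 2) (a b : A), Homog F σ i a → Homog F σ j b →
    dot a b = (-1 : F) ^ ((i : ℕ) * j) • dot b a
  br_anticomm : ∀ (i j : Fin 2) (a b : A), Homog F σ i a → Homog F σ j b →
    br a b = -((-1 : F) ^ ((i : ℕ) * j) • br b a)

end Defs

/-- The parity operator of the Kantor double `Kan(A) = A ⊕ Ā`, where `(a, b)` stands for
`a + b̄`. -/
def kanPar {A : Type*} [AddCommGroup A] (σ : A → A) (x : A × A) : A × A := (σ x.1, -σ x.2)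

/-- The product of the Kantor double: `a * b = a b`, `a * b̄ = (a b)‾`, `ā * b = (-1)^|b| (a b)‾`,
`ā * b̄ = (-1)^|b| {a, b}`. -/
def kanMul {A : Type*} [AddCommGroup A] (σ : A → A) (dot br : A → A → A) (x y : A × A) : A × A :=
  (dot x.1 y.1 + br x.2 (σ y.2), dot x.1 y.2 + dot x.2 (σ y.1))

/-- `A` is a dot-bracket superalgebra whose bracket is Jordan. -/
def IsJordanBracket (F : Type*) [Field F] {A : Type*} [AddCommGroup A] [Module F A] (σ : A → A)
    (dot br : A → A → A) : Prop :=
  IsDotBracket F σ dot br ∧ IsJordan F (kanPar σ) (kanMul σ dot br)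

/-- The parity operator of a split null extension. -/
def extPar {J M : Type*} (σ : J → J) (τ : M → M) (x : J × M) : J × M := (σ x.1, τ x.2)

/-- The product of the split null extension of `J` by `M`, with left action `l` and right
action `r`. -/
def extMul {J M : Type*} [AddCommGroup M] (m : J → J → J) (l : J → M → M) (r : M → J → M)
    (x y : J × M) : J × M := (m x.1 y.1, l x.1 y.2 + r x.2 y.1)

/-- The right action of `Kan(A)` on `Kan(V) = V ⊕ V̄`, for a dot-bracket supermodule `V` over `A` with
right actions `rd` (dot) and `rb` (bracket). -/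
def kanAct {A V : Type*} [AddCommGroup V] (σ : A → A) (rd rb : V → A → V) (v : V × V)
    (x : A × A) : V × V :=
  (rd v.1 x.1 + rb v.2 (σ x.2), rd v.1 x.2 + rd v.2 (σ x.1))

end Pool.Agent.V1113.Kan
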