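import Mathlib
import Pool.Agent.V1113.KanDefs

/-!
# The Jordan superalgebra of an associative superalgebra
-/

set_option autoImplicit false
set_option linter.all false

namespace Pool.Agent.V1113.Kan

variable {F : Type*} [Field F] {R : Type*} [Ring R] [Algebra F R]

/-- The supersymmetrised product of an associative superalgebra with parity automorphism `s`. -/
def circ (F : Type*) [Field F] {R : Type*} [Ring R] [Algebra F R] (s : R → R) (x y : R) : R :=
  (4 : F)⁻¹ • ((2 : F) • (x * y) + y * (x + s x) + s y * (x - s x))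

variable {s : R → R}

theorem circ_homog (h2 : (2 : F) ≠ 0) (i j : Fin 2) (x y : R) (hx : s x = (-1 : F) ^ (i : ℕ) • x)
    (hy : s y = (-1 : F) ^ (j : ℕ) • y) :
    circ F s x y = (2 : F)⁻¹ • (x * y + (-1 : F) ^ ((i : ℕ) * j) • (y * x)) := by
  have h4 : (4 : F)⁻¹ * 2 = 2⁻¹ := by
    rw [show (4 : F) = 2 * 2 by norm_num]; field_simp
  fin_cases i <;> fin_cases j <;>
    simp only [circ, hx, hy, Fin.zero_eta, Fin.mk_one, Fin.isValue, Fin.val_zero, Fin.val_one,
      pow_zero, pow_one, one_smul, mul_zero, zero_mul, mul_one, neg_smul, sub_self, mul_zero,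
      sub_neg_eq_add, add_neg_cancel, add_zero, neg_mul, mul_add]
  · rw [← h4]; module
  · rw [← h4]; module
  · rw [← h4]; module
  · rw [← h4]; module

theorem circ_parity (h2 : (2 : F) ≠ 0) (hadd : ∀ x y, s (x + y) = s x + s y)
    (hsm : ∀ (c : F) x, s (c • x) = c • s x) (hmul : ∀ x y, s (x * y) = s x * s y) (i j : Fin 2)
    (x y : R) (hx : s x = (-1 : F) ^ (i : ℕ) • x) (hy : s y = (-1 : F) ^ (j : ℕ) • y) :
    s (circ F s x y) = (-1 : F) ^ ((i + j : Fin 2) : ℕ) • circ F s x y := by
  rw [circ_homog h2 i j x y hx hy, hsm, hadd, hsm, hmul, hmul, hx, hy]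
  fin_cases i <;> fin_cases j <;> simp

theorem jordan_circ (h2 : (2 : F) ≠ 0) (hadd : ∀ x y, s (x + y) = s x + s y)
    (hsm : ∀ (c : F) x, s (c • x) = c • s x) (hmul : ∀ x y, s (x * y) = s x * s y)
    (i j k l : Fin 2) (a b c d : R) (ha : s a = (-1 : F) ^ (i : ℕ) • a)
    (hb : s b = (-1 : F) ^ (j : ℕ) • b) (hc : s c = (-1 : F) ^ (k : ℕ) • c)
    (hd : s d = (-1 : F) ^ (l : ℕ) • d) :
    circ F s (circ F s a b) (circ F s c d) +
        (-1 : F) ^ ((j : ℕ) * k) • circ F s (circ F s a c) (circ F s b d) +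
        (-1 : F) ^ ((l : ℕ) * (j + k)) • circ F s (circ F s a d) (circ F s b c) =
      circ F s (circ F s (circ F s a b) c) d +
        (-1 : F) ^ ((j : ℕ) * k + j * l + k * l) • circ F s (circ F s (circ F s a d) c) b +
        (-1 : F) ^ ((i : ℕ) * (j + k + l) + k * l) • circ F s (circ F s (circ F s b d) c) a := by
  have P := fun i j x y hx hy => circ_parity (F := F) h2 hadd hsm hmul i j x y hx hy
  rw [circ_homog h2 _ _ _ _ (P i j a b ha hb) (P k l c d hc hd),
    circ_homog h2 _ _ _ _ (P i k a c ha hc) (P j l b d hb hd),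
    circ_homog h2 _ _ _ _ (P i l a d ha hd) (P j k b c hb hc),
    circ_homog h2 _ _ _ _ (P _ _ _ _ (P i j a b ha hb) hc) hd,
    circ_homog h2 _ _ _ _ (P _ _ _ _ (P i l a d ha hd) hc) hb,
    circ_homog h2 _ _ _ _ (P _ _ _ _ (P j l b d hb hd) hc) ha,
    circ_homog h2 _ _ _ _ (P i j a b ha hb) hc,
    circ_homog h2 _ _ _ _ (P i l a d ha hd) hc,
    circ_homog h2 _ _ _ _ (P j l b d hb hd) hc,
    circ_homog h2 i j a b ha hb, circ_homog h2 i k a c ha hc, circ_homog h2 i l a d ha hd,
    circ_homog h2 j k b c hb hc, circ_homog h2 j l b d hb hd, circ_homog h2 k l c d hc hd]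
  clear P ha hb hc hd hadd hsm hmul
  fin_cases i <;> fin_cases j <;> fin_cases k <;> fin_cases l <;>
    simp [mul_add, add_mul, mul_assoc, smul_smul, smul_add, mul_sub, sub_mul] <;> module

/-- A superspace with an injective map to an associative superalgebra that turns its product into the
supersymmetrised product is a Jordan superalgebra. -/
theorem isJordan_of_map (h2 : (2 : F) ≠ 0) (hadd : ∀ x y, s (x + y) = s x + s y)
    (hsm : ∀ (c : F) x, s (c • x) = c • s x) (hmul : ∀ x y, s (x * y) = s x * s y)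
    (hinv : ∀ x, s (s x) = x)
    {J : Type*} [AddCommGroup J] [Module F J] (σ : J → J) (m : J → J → J) (φ : J →ₗ[F] R)
    (hφ : Function.Injective φ) (hσ : ∀ x, φ (σ x) = s (φ x))
    (hm : ∀ x y, φ (m x y) = circ F s (φ x) (φ y)) : IsJordan F σ m := by
  have hh : ∀ (i : Fin 2) (x : J), Homog F σ i x → s (φ x) = (-1 : F) ^ (i : ℕ) • φ x := by
    intro i x hx
    rw [← hσ, hx, map_smul]
  refine ⟨⟨⟨?_, ?_⟩, ?_⟩, ⟨?_, ?_, ?_⟩, ?_, ?_⟩
  · intro x y; apply hφ; rw [hσ, map_add, map_add, hadd, hσ, hσ]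
  · intro c x; apply hφ; rw [hσ, map_smul, map_smul, hsm, hσ]
  · intro x; apply hφ; rw [hσ, hσ, hinv]
  · intro w
    constructor
    · intro x y; apply hφ
      rw [hm, map_add, map_add, hm, hm]
      simp only [circ, hadd, mul_add, add_mul, mul_sub]
      module
    · intro c x; apply hφ
      rw [hm, map_smul, map_smul, hm]
      simp only [circ, hsm, mul_add, smul_add, mul_sub, smul_mul_assoc, mul_smul_comm]
      module
  · intro w
    constructor
    · intro x y; apply hφ
      rw [hm, map_add, map_add, hm, hm]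
      simp only [circ, hadd, mul_add, add_mul, mul_sub]
      module
    · intro c x; apply hφ
      rw [hm, map_smul, map_smul, hm]
      simp only [circ, hsm, mul_add, smul_add, mul_sub, smul_mul_assoc, mul_smul_comm]
      module
  · intro x y; apply hφ
    rw [hσ, hm, hm, hσ, hσ]
    simp only [circ, hadd, hsm, hmul, sub_eq_add_neg]
    have hneg : ∀ x, s (-x) = - s x := by
      intro x
      rw [← neg_one_smul F x, hsm, neg_one_smul]
    rw [hneg]
  · intro i j a b ha hb
    apply hφ
    rw [hm, map_smul, hm, circ_homog h2 i j _ _ (hh i a ha) (hh j b hb),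
      circ_homog h2 j i _ _ (hh j b hb) (hh i a ha), mul_comm (j : ℕ) i]
    fin_cases i <;> fin_cases j <;> simp [smul_add] <;> module
  · intro i j k l a b c d ha hb hc hd
    apply hφ
    simp only [map_add, map_smul, hm]
    exact jordan_circ h2 hadd hsm hmul i j k l _ _ _ _ (hh i a ha) (hh j b hb) (hh k c hc)
      (hh l d hd)

end Pool.Agent.V1113.Kan
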