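import Mathlib
import Pool.Agent.V1113.KanPlus

/-!
# Representations of the Kantor double of the polynomial ring

A representation `π` of `F[X]` on a space `W` together with an operator `δ` such that
`δ π(a) = π(a) δ + π(a')` gives a representation of the Jordan superalgebra `Kan(F[X])` on `W ⊕ W`.
-/

set_option autoImplicit false
set_option linter.all false

namespace Pool.Agent.V1113.Kan

open Polynomial

variable {F : Type*} [Field F] {W : Type*} [AddCommGroup W] [Module F W]

/-- The bracket `{a, b} = a b' - a' b` of the polynomial ring. -/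
noncomputable def polyBr (F : Type*) [Field F] (a b : F[X]) : F[X] :=
  a * derivative b - derivative a * b

variable (π : F[X] →ₐ[F] Module.End F W) (δ : Module.End F W)

/-- The action of the even part. -/
noncomputable def opE (a : F[X]) : Module.End F (W × W) := (π a).prodMap (π a)

/-- The action of the odd part. -/
noncomputable def opO (b : F[X]) : Module.End F (W × W) :=
  ((π b).comp (LinearMap.snd F W W)).prod
    ((((4 : F) • (π b * δ) + (2 : F) • π (derivative b))).comp (LinearMap.fst F W W))

theorem opE_apply (a : F[X]) (x : W × W) : opE π a x = (π a x.1, π a x.2) := rfl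

theorem opO_apply (b : F[X]) (x : W × W) :
    opO π δ b x = (π b x.2, (4 : F) • π b (δ x.1) + (2 : F) • π (derivative b) x.1) := rfl

/-- The parity operator of `W ⊕ W`. -/
noncomputable def sg (F W : Type*) [Field F] [AddCommGroup W] [Module F W] :
    Module.End F (W × W) :=
  LinearMap.prodMap (1 : Module.End F W) (-1 : Module.End F W)

theorem sg_apply (x : W × W) : sg F W x = (x.1, -x.2) := rfl

theorem sg_sg : sg F W * sg F W = 1 := by
  refine LinearMap.ext fun x => ?_
  simp [sg_apply, Module.End.mul_apply]

theorem pi_pi (a b : F[X]) (u : W) : π a (π b u) = π (a * b) u := by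
  rw [map_mul, Module.End.mul_apply]

theorem opE_mul (a c : F[X]) : opE π a * opE π c = opE π (a * c) := by
  refine LinearMap.ext fun x => ?_
  simp [Module.End.mul_apply, opE_apply]

theorem opE_add (a c : F[X]) : opE π (a + c) = opE π a + opE π c := by
  refine LinearMap.ext fun x => ?_
  simp [opE_apply]

theorem opE_smul (r : F) (a : F[X]) : opE π (r • a) = r • opE π a := by
  refine LinearMap.ext fun x => ?_
  simp [opE_apply]

theorem opO_add (a c : F[X]) : opO π δ (a + c) = opO π δ a + opO π δ c := by
  refine LinearMap.ext fun x => ?_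
  simp only [opO_apply, LinearMap.add_apply, map_add, derivative_add, smul_add, Prod.mk_add_mk]
  congr 1
  abel

theorem opO_smul (r : F) (a : F[X]) : opO π δ (r • a) = r • opO π δ a := by
  refine LinearMap.ext fun x => ?_
  simp only [opO_apply, LinearMap.smul_apply, map_smul, derivative_smul, Prod.smul_mk, smul_add]
  congr 1
  module

theorem sg_opE (a : F[X]) : sg F W * opE π a * sg F W = opE π a := by
  refine LinearMap.ext fun x => ?_
  simp [Module.End.mul_apply, opE_apply, sg_apply]

theorem sg_opO (a : F[X]) : sg F W * opO π δ a * sg F W = - opO π δ a := by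
  refine LinearMap.ext fun x => ?_
  simp [Module.End.mul_apply, opO_apply, sg_apply]

variable (hδ : ∀ a u, δ (π a u) = π a (δ u) + π (derivative a) u)

include hδ in
theorem opE_opO (a d : F[X]) :
    opE π a * opO π δ d + opO π δ d * opE π a = (2 : F) • opO π δ (a * d) := by
  refine LinearMap.ext fun x => ?_
  simp only [Module.End.mul_apply, LinearMap.add_apply, LinearMap.smul_apply, opE_apply, opO_apply,
    hδ, map_add, map_smul, pi_pi, derivative_mul, Prod.mk_add_mk, Prod.smul_mk]
  rw [mul_comm d a, mul_comm d (derivative a), mul_comm (derivative d) a]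
  congr 1 <;> module

include hδ in
theorem opO_opO (b d : F[X]) :
    opO π δ b * opO π δ d - opO π δ d * opO π δ b = (2 : F) • opE π (polyBr F b d) := by
  refine LinearMap.ext fun x => ?_
  simp only [Module.End.mul_apply, LinearMap.sub_apply, LinearMap.smul_apply, opE_apply, opO_apply,
    hδ, map_add, map_smul, pi_pi, polyBr, Prod.mk_sub_mk, Prod.smul_mk, map_sub, smul_add]
  rw [mul_comm d b, mul_comm d (derivative b), mul_comm (derivative d) b]
  congr 1 <;> module

/-- The representation of `Kan(F[X])` on `W ⊕ W`. -/
noncomputable def rho (x : F[X] × F[X]) : Module.End F (W × W) := opE π x.1 + opO π δ x.2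

theorem rho_add (x y : F[X] × F[X]) : rho π δ (x + y) = rho π δ x + rho π δ y := by
  simp only [rho, Prod.fst_add, Prod.snd_add, opE_add, opO_add]; abel

theorem rho_smul (r : F) (x : F[X] × F[X]) : rho π δ (r • x) = r • rho π δ x := by
  simp only [rho, Prod.smul_fst, Prod.smul_snd, opE_smul, opO_smul, smul_add]

theorem sg_rho (x : F[X] × F[X]) : sg F W * rho π δ x * sg F W = rho π δ (kanPar id x) := by
  have h : opO π δ (-x.2) = - opO π δ x.2 := by
    refine LinearMap.ext fun v => ?_
    simp only [opO_apply, LinearMap.neg_apply, map_neg, derivative_neg, Prod.neg_mk, smul_neg,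
      neg_add]
  simp only [rho, kanPar, id, mul_add, add_mul, sg_opE, sg_opO, h]

include hδ in
theorem rho_mul (h2 : (2 : F) ≠ 0) (x y : F[X] × F[X]) :
    rho π δ (kanMul id (· * ·) (polyBr F) x y) =
      circ F (fun z => sg F W * z * sg F W) (rho π δ x) (rho π δ y) := by
  have h4 : (4 : F) ≠ 0 := by
    rw [show (4 : F) = 2 * 2 by norm_num]; exact mul_ne_zero h2 h2
  have hl : (4 : F) • rho π δ (kanMul id (· * ·) (polyBr F) x y) =
      (2 : F) • ((2 : F) • opE π (x.1 * y.1)) + (2 : F) • ((2 : F) • opE π (polyBr F x.2 y.2)) +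
      (2 : F) • ((2 : F) • opO π δ (x.1 * y.2)) + (2 : F) • ((2 : F) • opO π δ (y.1 * x.2)) := by
    simp only [rho, kanMul, id, opE_add, opO_add, mul_comm x.2 y.1]
    module
  rw [circ, eq_inv_smul_iff₀ h4, hl, ← opO_opO π δ hδ, ← opE_opO π δ hδ, ← opE_opO π δ hδ]
  have hs : ∀ x : F[X] × F[X], sg F W * rho π δ x * sg F W = opE π x.1 - opO π δ x.2 := by
    intro x
    rw [rho, mul_add, add_mul, sg_opE, sg_opO, sub_eq_add_neg]
  rw [hs, hs]
  simp only [rho, ← opE_mul π x.1 y.1]
  have hc : opE π x.1 * opE π y.1 = opE π y.1 * opE π x.1 := by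
    rw [opE_mul, opE_mul, mul_comm]
  simp only [mul_add, add_mul, mul_sub, sub_mul, smul_add, smul_sub]
  rw [hc]
  module

theorem sg_mul_sg (x y : Module.End F (W × W)) :
    sg F W * (x * y) * sg F W = (sg F W * x * sg F W) * (sg F W * y * sg F W) := by
  have : (sg F W * x * sg F W) * (sg F W * y * sg F W) =
      sg F W * x * (sg F W * sg F W) * y * sg F W := by noncomm_ring
  rw [this, sg_sg]; noncomm_ring

end Pool.Agent.V1113.Kan
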