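import Mathlib
import Pool.Agent.V1113.KanRep

/-!
# A module over the Kantor double of the polynomial ring

The module consists of the linear maps `m` from `F[X] ⊕ F[X]` to `F[X] ⊕ F[X]` that vanish on the
multiples of some power of `X`. The ring `F[X]` acts on the source by multiplication and on the
target by `a ↦ a (1 + d/dX)`.
-/

set_option autoImplicit false
set_option linter.all false

namespace Pool.Agent.V1113.Kan

open Polynomial

variable (F : Type*) [Field F]

/-- The operators `a (1 + d/dX)` on `F[X]`. -/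
noncomputable def piT : F[X] →ₐ[F] Module.End F F[X] :=
  aeval (1 + derivative : Module.End F F[X])

/-- Multiplication operators on `F[X]`. -/
noncomputable def piS : F[X] →ₐ[F] Module.End F F[X] := Algebra.lmul F F[X]

theorem piS_apply (a u : F[X]) : piS F a u = a * u := rfl

/-- The operator `- X` on `F[X]`. -/
noncomputable def deT : Module.End F F[X] := - LinearMap.mulLeft F (X : F[X])

theorem deT_apply (u : F[X]) : deT F u = - (X * u) := rfl

theorem hS (a u : F[X]) : derivative (piS F a u) = piS F a (derivative u) + piS F (derivative a) u := by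
  simp only [piS_apply, derivative_mul]; ring

theorem piT_X (u : F[X]) : piT F X u = u + derivative u := by
  rw [piT, aeval_X]; rfl

theorem piT_C (c : F) (u : F[X]) : piT F (C c) u = c • u := by
  rw [piT, aeval_C, Module.algebraMap_end_apply]

theorem piT_X_mul (a u : F[X]) : piT F (a * X) u = piT F a (u + derivative u) := by
  rw [map_mul, Module.End.mul_apply, piT_X]

theorem hT (a u : F[X]) : deT F (piT F a u) = piT F a (deT F u) + piT F (derivative a) u := by
  induction a using Polynomial.induction_on' generalizing u with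
  | add p q hp hq =>
    simp only [map_add, LinearMap.add_apply, hp, hq, derivative_add]; abel
  | monomial n c =>
    induction n generalizing u with
    | zero =>
      rw [monomial_zero_left, piT_C, piT_C, derivative_C, map_zero, map_smul, LinearMap.zero_apply,
        add_zero]
    | succ n ih =>
      rw [← monomial_mul_X, piT_X_mul, ih, derivative_mul, derivative_X, mul_one,
        map_add (piT F) (derivative (monomial n c) * X), LinearMap.add_apply, piT_X_mul, piT_X_mul]
      have h : deT F (u + derivative u) = (deT F u + derivative (deT F u)) + u := by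
        simp only [deT_apply, derivative_neg, derivative_mul, derivative_X]; ring
      rw [h, map_add (piT F (monomial n c))]
      abel

/-- The representation on the target. -/
noncomputable abbrev rT (x : F[X] × F[X]) : Module.End F (F[X] × F[X]) := rho (piT F) (deT F) x

/-- The representation on the source. -/
noncomputable abbrev rS (x : F[X] × F[X]) : Module.End F (F[X] × F[X]) :=
  rho (piS F) (derivative : Module.End F F[X]) x

theorem rS_apply (x v : F[X] × F[X]) : rS F x v =
    (x.1 * v.1 + x.2 * v.2, (4 : F) • (x.2 * derivative v.1) + (2 : F) • (derivative x.2 * v.1) +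
      x.1 * v.2) := by
  simp only [rS, rho, LinearMap.add_apply, opE_apply, opO_apply, piS_apply, Prod.mk_add_mk]
  congr 1
  abel

theorem rS_inj {x : F[X] × F[X]} (h : rS F x = 0) : x = 0 := by
  have h1 := congrArg (fun f : Module.End F (F[X] × F[X]) => (f (0, 1)).1) h
  have h2 := congrArg (fun f : Module.End F (F[X] × F[X]) => (f (0, 1)).2) h
  simp [rS_apply] at h1 h2
  exact Prod.ext h2 h1

/-- The ambient space of linear maps. -/
abbrev Hm : Type _ := (F[X] × F[X]) →ₗ[F] (F[X] × F[X])

/-- The space of linear maps that vanish on the multiples of some power of `X`. -/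
def Md : Submodule F (Hm F) where
  carrier := {m | ∃ K : ℕ, ∀ v : F[X] × F[X], m ((X : F[X]) ^ K • v) = 0}
  zero_mem' := ⟨0, fun v => rfl⟩
  add_mem' := by
    rintro a b ⟨K, hK⟩ ⟨L, hL⟩
    refine ⟨K + L, fun v => ?_⟩
    rw [LinearMap.add_apply, pow_add, mul_smul, hK, smul_comm, hL, add_zero]
  smul_mem' := by
    rintro c a ⟨K, hK⟩
    exact ⟨K, fun v => by rw [LinearMap.smul_apply, hK, smul_zero]⟩

/-- The parity operator on linear maps. -/
noncomputable def tauH (m : Hm F) : Hm F := sg F F[X] * m * sg F F[X]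

/-- The left action on linear maps. -/
noncomputable def lactH (x : F[X] × F[X]) (m : Hm F) : Hm F :=
  (2 : F)⁻¹ • (rT F x * m + m * rS F (x.1, 0) + tauH F m * rS F (0, x.2))

/-- The right action on linear maps. -/
noncomputable def ractH (m : Hm F) (x : F[X] × F[X]) : Hm F :=
  (2 : F)⁻¹ • (m * rS F x + rT F (x.1, 0) * m + rT F (0, x.2) * tauH F m)

variable {F}

theorem tauH_mem {m : Hm F} (hm : m ∈ Md F) : tauH F m ∈ Md F := by
  obtain ⟨K, hK⟩ := hm
  refine ⟨K, fun v => ?_⟩
  have h : sg F F[X] ((X : F[X]) ^ K • v) = (X : F[X]) ^ K • sg F F[X] v := by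
    simp [sg_apply]
  rw [tauH, Module.End.mul_apply, Module.End.mul_apply, h, hK, map_zero]

theorem left_mem {m : Hm F} (hm : m ∈ Md F) (f : Module.End F (F[X] × F[X])) : f * m ∈ Md F := by
  obtain ⟨K, hK⟩ := hm
  exact ⟨K, fun v => by rw [Module.End.mul_apply, hK, map_zero]⟩

theorem rS_pow (x v : F[X] × F[X]) (K : ℕ) :
    ∃ w : F[X] × F[X], rS F x ((X : F[X]) ^ (K + 1) • v) = (X : F[X]) ^ K • w := by
  refine ⟨(X * (x.1 * v.1) + X * (x.2 * v.2), (4 : F) • (x.2 * (((K + 1 : ℕ) : F[X]) * v.1 + X * derivative v.1)) +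
    (2 : F) • (derivative x.2 * (X * v.1)) + X * (x.1 * v.2)), ?_⟩
  rw [rS_apply]
  ext1
  · simp only [Prod.smul_fst, Prod.smul_snd, smul_eq_mul, pow_succ]; ring
  · simp only [Prod.smul_fst, Prod.smul_snd, smul_eq_mul, pow_succ, derivative_mul, derivative_X,
      derivative_X_pow, smul_eq_C_mul, mul_add]
    rcases K with _ | K
    · simp; ring
    · simp only [Nat.add_sub_cancel, map_natCast]
      push_cast
      ring

theorem right_mem {m : Hm F} (hm : m ∈ Md F) (x : F[X] × F[X]) : m * rS F x ∈ Md F := by
  obtain ⟨K, hK⟩ := hm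
  refine ⟨K + 1, fun v => ?_⟩
  obtain ⟨w, hw⟩ := rS_pow x v K
  rw [Module.End.mul_apply, hw, hK]

theorem lactH_mem {m : Hm F} (hm : m ∈ Md F) (x : F[X] × F[X]) : lactH F x m ∈ Md F :=
  Submodule.smul_mem _ _ (Submodule.add_mem _ (Submodule.add_mem _ (left_mem hm _)
    (right_mem hm _)) (right_mem (tauH_mem hm) _))

theorem ractH_mem {m : Hm F} (hm : m ∈ Md F) (x : F[X] × F[X]) : ractH F m x ∈ Md F :=
  Submodule.smul_mem _ _ (Submodule.add_mem _ (Submodule.add_mem _ (right_mem hm _)
    (left_mem hm _)) (left_mem (tauH_mem hm) _))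

/-- The parity operator of the module. -/
noncomputable def tau (m : Md F) : Md F := ⟨tauH F m.1, tauH_mem m.2⟩

/-- The left action on the module. -/
noncomputable def lact (x : F[X] × F[X]) (m : Md F) : Md F := ⟨lactH F x m.1, lactH_mem m.2 x⟩

/-- The right action on the module. -/
noncomputable def ract (m : Md F) (x : F[X] × F[X]) : Md F := ⟨ractH F m.1 x, ractH_mem m.2 x⟩

/-! ### The module is a Jordan supermodule -/

/-- The operators on the sum of the target and the source. -/
noncomputable def bigOp (x : F[X] × F[X]) (m : Hm F) :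
    Module.End F ((F[X] × F[X]) × (F[X] × F[X])) :=
  ((rT F x).comp (LinearMap.fst F _ _) + m.comp (LinearMap.snd F _ _)).prod
    ((rS F x).comp (LinearMap.snd F _ _))

theorem bigOp_apply (x : F[X] × F[X]) (m : Hm F) (v : (F[X] × F[X]) × (F[X] × F[X])) :
    bigOp x m v = (rT F x v.1 + m v.2, rS F x v.2) := rfl

/-- The parity operator of the sum. -/
noncomputable def bigSg : Module.End F ((F[X] × F[X]) × (F[X] × F[X])) :=
  (sg F F[X]).prodMap (sg F F[X])

theorem bigSg_apply (v : (F[X] × F[X]) × (F[X] × F[X])) :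
    bigSg v = (sg F F[X] v.1, sg F F[X] v.2) := rfl

theorem sgsg (v : F[X] × F[X]) : sg F F[X] (sg F F[X] v) = v := by simp [sg_apply]

theorem bigSg_bigSg : (bigSg : Module.End F ((F[X] × F[X]) × (F[X] × F[X]))) * bigSg = 1 := by
  refine LinearMap.ext fun v => ?_
  simp only [Module.End.mul_apply, bigSg_apply, sgsg]; rfl

theorem bigSg_bigOp (x : F[X] × F[X]) (m : Hm F) :
    bigSg * bigOp x m * bigSg = bigOp (kanPar id x) (tauH F m) := by
  refine LinearMap.ext fun v => ?_
  have h1 := sg_rho (piT F) (deT F) x
  have h2 := sg_rho (piS F) (derivative : Module.End F F[X]) x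
  simp only [Module.End.mul_apply, bigSg_apply, bigOp_apply, rT, rS, ← h1, ← h2, map_add, tauH]

section

variable {W : Type*} [AddCommGroup W] [Module F W] (π : F[X] →ₐ[F] Module.End F W)
  (δ : Module.End F W)

theorem opO_zero : opO π δ 0 = 0 := by
  refine LinearMap.ext fun v => ?_
  simp [opO_apply]

theorem opE_zero : opE π 0 = 0 := by
  refine LinearMap.ext fun v => ?_
  simp [opE_apply]

theorem opO_neg (b : F[X]) : opO π δ (-b) = - opO π δ b := by
  refine LinearMap.ext fun v => ?_
  simp only [opO_apply, LinearMap.neg_apply, map_neg, derivative_neg, Prod.neg_mk, smul_neg,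
    neg_add]

theorem rho_even (a : F[X]) : rho π δ (a, 0) = opE π a := by
  rw [rho, opO_zero, add_zero]

theorem rho_odd (b : F[X]) : rho π δ (0, b) = opO π δ b := by
  rw [rho, opE_zero, zero_add]

theorem rho_par (x : F[X] × F[X]) : rho π δ (kanPar id x) = opE π x.1 - opO π δ x.2 := by
  simp only [rho, kanPar, opO_neg, id, sub_eq_add_neg]

end

theorem bigOp_mul (h2 : (2 : F) ≠ 0) (x y : F[X] × F[X]) (m n : Hm F) :
    bigOp (kanMul id (· * ·) (polyBr F) x y) (lactH F x n + ractH F m y) =
      circ F (fun z => bigSg * z * bigSg) (bigOp x m) (bigOp y n) := by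
  have h4 : (4 : F) ≠ 0 := by
    rw [show (4 : F) = 2 * 2 by norm_num]; exact mul_ne_zero h2 h2
  have h42 : (4 : F)⁻¹ * 2 = 2⁻¹ := by
    rw [show (4 : F) = 2 * 2 by norm_num]; field_simp
  have e1 := rho_mul (piT F) (deT F) (hT F) h2 x y
  have e2 := rho_mul (piS F) (derivative : Module.End F F[X]) (hS F) h2 x y
  refine LinearMap.ext fun v => ?_
  simp only [circ, bigSg_bigOp]
  rw [circ] at e1 e2
  simp only [sg_rho] at e1 e2
  rw [bigOp_apply, rT, rS, e1, e2]
  simp only [LinearMap.smul_apply, LinearMap.add_apply, LinearMap.sub_apply, Module.End.mul_apply,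
    bigOp_apply, lactH, ractH, rT, rS, rho_par, rho_even, rho_odd, Prod.mk_add_mk, Prod.smul_mk,
    Prod.mk_sub_mk, map_add, map_sub]
  simp only [rho, LinearMap.add_apply, map_add, map_sub, LinearMap.sub_apply]
  rw [← h42]
  congr 1 <;> module

/-- The map of the split null extension to operators. -/
noncomputable def bigMap : (F[X] × F[X]) × Md F →ₗ[F] Module.End F ((F[X] × F[X]) × (F[X] × F[X])) where
  toFun z := bigOp z.1 z.2.1
  map_add' z w := by
    refine LinearMap.ext fun v => ?_
    simp only [bigOp_apply, Prod.fst_add, Prod.snd_add, rT, rS, rho_add, Submodule.coe_add,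
      LinearMap.add_apply, Prod.mk_add_mk]
    congr 1
    abel
  map_smul' r z := by
    refine LinearMap.ext fun v => ?_
    simp only [bigOp_apply, Prod.smul_fst, Prod.smul_snd, rT, rS, rho_smul, Submodule.coe_smul,
      LinearMap.smul_apply, RingHom.id_apply, Prod.smul_mk, smul_add]

theorem bigMap_inj : Function.Injective (bigMap : (F[X] × F[X]) × Md F →ₗ[F] _) := by
  refine (injective_iff_map_eq_zero _).2 ?_
  rintro ⟨x, m⟩ h
  have h' : ∀ v, bigOp x m.1 v = 0 := fun v => congrArg (fun f : Module.End F _ => f v) h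
  have hx : x = 0 := by
    apply rS_inj F
    refine LinearMap.ext fun v => ?_
    have := congrArg Prod.snd (h' (0, v))
    simpa [bigOp_apply] using this
  have hm : m = 0 := by
    apply Subtype.ext
    refine LinearMap.ext fun v => ?_
    have := congrArg Prod.fst (h' (0, v))
    rw [bigOp_apply, map_zero, zero_add] at this
    exact this
  rw [hx, hm]; rfl

theorem conj_facts {N : Type*} [AddCommGroup N] [Module F N] (S : Module.End F N) (hS : S * S = 1) :
    (∀ x y : Module.End F N, S * (x + y) * S = S * x * S + S * y * S) ∧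
    (∀ (c : F) (x : Module.End F N), S * (c • x) * S = c • (S * x * S)) ∧
    (∀ x y : Module.End F N, S * (x * y) * S = (S * x * S) * (S * y * S)) ∧
    (∀ x : Module.End F N, S * (S * x * S) * S = x) := by
  refine ⟨fun x y => by noncomm_ring, fun c x => ?_, fun x y => ?_, fun x => ?_⟩
  · rw [mul_smul_comm, smul_mul_assoc]
  · have : (S * x * S) * (S * y * S) = S * x * (S * S) * y * S := by noncomm_ring
    rw [this, hS]; noncomm_ring
  · have : S * (S * x * S) * S = (S * S) * x * (S * S) := by noncomm_ring
    rw [this, hS, one_mul, mul_one]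

/-- The null extension by the module is a Jordan superalgebra. -/
theorem isJordan_ext (h2 : (2 : F) ≠ 0) : IsJordan F (extPar (kanPar id) (tau : Md F → Md F))
    (extMul (kanMul id (· * ·) (polyBr F)) lact ract) := by
  obtain ⟨f1, f2, f3, f4⟩ := conj_facts (bigSg (F := F)) bigSg_bigSg
  refine isJordan_of_map (s := fun z => bigSg * z * bigSg) h2 f1 f2 f3 f4 _ _ bigMap bigMap_inj
    ?_ ?_
  · rintro ⟨x, m⟩
    exact (bigSg_bigOp x m.1).symm
  · rintro ⟨x, m⟩ ⟨y, n⟩
    exact bigOp_mul h2 x y m.1 n.1

/-- `Kan(F[X])` is a Jordan superalgebra. -/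
theorem isJordan_kan (h2 : (2 : F) ≠ 0) :
    IsJordan F (kanPar (id : F[X] → F[X])) (kanMul id (· * ·) (polyBr F)) := by
  obtain ⟨f1, f2, f3, f4⟩ := conj_facts (sg F F[X]) sg_sg
  refine isJordan_of_map (s := fun z => sg F F[X] * z * sg F F[X]) h2 f1 f2 f3 f4 _ _
    { toFun := fun x => rS F x
      map_add' := fun x y => rho_add _ _ x y
      map_smul' := fun r x => rho_smul _ _ r x } ?_ ?_ ?_
  · rw [← LinearMap.ker_eq_bot, LinearMap.ker_eq_bot']
    intro x h
    exact rS_inj F h
  · intro x
    exact (sg_rho _ _ x).symm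
  · intro x y
    exact rho_mul _ _ (hS F) h2 x y

/-- The polynomial ring with the bracket `a b' - a' b` is a dot-bracket superalgebra. -/
theorem isDotBracket (h2 : (2 : F) ≠ 0) : IsDotBracket F (id : F[X] → F[X]) (· * ·) (polyBr F) := by
  have hodd : ∀ (i : Fin 2) (a : F[X]), Homog F id i a → i = 0 ∨ a = 0 := by
    intro i a ha
    fin_cases i
    · exact Or.inl rfl
    · right
      have h : a = -a := by simpa [Homog] using ha
      have h3 : (2 : F) • a = 0 := by rw [two_smul]; nth_rewrite 1 [h]; simp
      rcases smul_eq_zero.1 h3 with h4 | h4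
      · exact absurd h4 h2
      · exact h4
  refine ⟨⟨⟨fun _ _ => rfl, fun _ _ => rfl⟩, fun _ => rfl⟩, ⟨?_, ?_, fun _ _ => rfl⟩,
    ⟨?_, ?_, fun _ _ => rfl⟩, fun a b c => mul_assoc a b c, ?_, ?_⟩
  · exact fun w => ⟨fun x y => add_mul x y w, fun c x => smul_mul_assoc c x w⟩
  · exact fun w => ⟨fun x y => mul_add w x y, fun c x => mul_smul_comm c w x⟩
  · refine fun w => ⟨fun x y => ?_, fun c x => ?_⟩
    · simp only [polyBr, derivative_add]; ring
    · simp only [polyBr, derivative_smul]; simp only [smul_eq_C_mul]; ring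
  · refine fun w => ⟨fun x y => ?_, fun c x => ?_⟩
    · simp only [polyBr, derivative_add]; ring
    · simp only [polyBr, derivative_smul]; simp only [smul_eq_C_mul]; ring
  · intro i j a b ha hb
    rcases hodd i a ha with rfl | rfl <;> rcases hodd j b hb with rfl | rfl <;> simp [mul_comm]
  · intro i j a b ha hb
    rcases hodd i a ha with rfl | rfl <;> rcases hodd j b hb with rfl | rfl <;>
      simp [polyBr, mul_comm]

end Pool.Agent.V1113.Kan
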