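import Mathlib
import Pool.Agent.V1113.KanMod

/-!
# The module over the Kantor double of the polynomial ring is irreducible
-/

set_option autoImplicit false
set_option linter.all false

namespace Pool.Agent.V1113.Kan

open Polynomial

variable {F : Type*} [Field F]

/-- The derivative of both components. -/
noncomputable def D1 : Module.End F (F[X] × F[X]) := opE (piT F) (X - 1)

theorem D1_apply (v : F[X] × F[X]) : D1 v = (derivative v.1, derivative v.2) := by
  have h : ∀ u, piT F (X - 1) u = derivative u := by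
    intro u
    rw [map_sub, LinearMap.sub_apply, piT_X, map_one, Module.End.one_apply, add_sub_cancel_left]
  rw [D1, opE_apply, h, h]

theorem D1_pow (L : ℕ) : (D1 : Module.End F (F[X] × F[X])) ^ L = opE (piT F) ((X - 1) ^ L) := by
  induction L with
  | zero =>
    refine LinearMap.ext fun v => ?_
    simp [opE_apply]
  | succ L ih => rw [pow_succ, ih, D1, opE_mul, pow_succ]

theorem D1_pow_apply (L : ℕ) (v : F[X] × F[X]) :
    ((D1 : Module.End F (F[X] × F[X])) ^ L) v = (derivative^[L] v.1, derivative^[L] v.2) := by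
  induction L generalizing v with
  | zero => rfl
  | succ L ih =>
    rw [pow_succ, Module.End.mul_apply, D1_apply, ih, Function.iterate_succ_apply,
      Function.iterate_succ_apply]

theorem D1_nilpotent (v : F[X] × F[X]) : ∃ L, ((D1 : Module.End F (F[X] × F[X])) ^ L) v = 0 := by
  refine ⟨v.1.natDegree + v.2.natDegree + 1, ?_⟩
  rw [D1_pow_apply, iterate_derivative_eq_zero (by omega), iterate_derivative_eq_zero (by omega)]
  rfl

theorem D1_pow_zero_of_le {L L' : ℕ} (h : L ≤ L') {v : F[X] × F[X]}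
    (hv : ((D1 : Module.End F (F[X] × F[X])) ^ L) v = 0) :
    ((D1 : Module.End F (F[X] × F[X])) ^ L') v = 0 := by
  obtain ⟨k, rfl⟩ := Nat.exists_eq_add_of_le h
  rw [add_comm, pow_add, Module.End.mul_apply, hv, map_zero]

/-- A linear map that vanishes on the multiples of `X` is determined by two values. -/
theorem eq_of_X {m : Hm F} (hm : ∀ v : F[X] × F[X], m ((X : F[X]) • v) = 0) (v : F[X] × F[X]) :
    m v = v.1.coeff 0 • m (1, 0) + v.2.coeff 0 • m (0, 1) := by
  have h : v = (X : F[X]) • (v.1.divX, v.2.divX) +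
      (v.1.coeff 0 • ((1, 0) : F[X] × F[X]) + v.2.coeff 0 • ((0, 1) : F[X] × F[X])) := by
    ext1
    · simp only [Prod.smul_mk, Prod.fst_add, smul_eq_mul, smul_zero, add_zero]
      rw [smul_eq_C_mul, mul_one]
      exact (X_mul_divX_add v.1).symm
    · simp only [Prod.smul_mk, Prod.snd_add, smul_eq_mul, smul_zero, zero_add]
      rw [smul_eq_C_mul, mul_one]
      exact (X_mul_divX_add v.2).symm
  conv_lhs => rw [h]
  rw [map_add, hm, zero_add, map_add, map_smul, map_smul]

/-- The maps in the module have bounded degree. -/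
theorem exists_bound {m : Hm F} {K : ℕ} (hK : ∀ v : F[X] × F[X], m ((X : F[X]) ^ K • v) = 0) :
    ∃ L : ℕ, ∀ v, ((D1 : Module.End F (F[X] × F[X])) ^ L) (m v) = 0 := by
  induction K generalizing m with
  | zero => exact ⟨0, fun v => by simpa using hK v⟩
  | succ K ih =>
    -- the map `v ↦ m (X ^ K v)` is of rank at most two
    let m' : Hm F := m * opE (piS F) (X ^ K)
    have hm' : ∀ v : F[X] × F[X], m' v = m ((X : F[X]) ^ K • v) := fun v => rfl
    have h1 : ∀ v : F[X] × F[X], m' ((X : F[X]) • v) = 0 := by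
      intro v
      rw [hm', smul_smul, ← pow_succ, hK]
    obtain ⟨L1, hL1⟩ := D1_nilpotent (m' (1, 0))
    obtain ⟨L2, hL2⟩ := D1_nilpotent (m' (0, 1))
    -- subtract the value at the coefficients of degree `K`
    let c : Hm F := ((LinearMap.toSpanSingleton F (F[X] × F[X]) (m' (1, 0))).comp
        ((lcoeff F K).comp (LinearMap.fst F F[X] F[X]))) +
      ((LinearMap.toSpanSingleton F (F[X] × F[X]) (m' (0, 1))).comp
        ((lcoeff F K).comp (LinearMap.snd F F[X] F[X])))
    have hc : ∀ v : F[X] × F[X], c v = v.1.coeff K • m' (1, 0) + v.2.coeff K • m' (0, 1) :=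
      fun v => rfl
    obtain ⟨L3, hL3⟩ := ih (m := m - c) (by
      intro v
      rw [LinearMap.sub_apply, hc, ← hm', eq_of_X h1 v]
      simp only [Prod.smul_fst, Prod.smul_snd, smul_eq_mul]
      have hco : ∀ p : F[X], (X ^ K * p).coeff K = p.coeff 0 := by
        intro p
        have := coeff_X_pow_mul p K 0
        rwa [zero_add] at this
      rw [hco, hco, sub_self])
    refine ⟨L1 + L2 + L3, fun v => ?_⟩
    have h : m v = (m - c) v + c v := by rw [LinearMap.sub_apply, sub_add_cancel]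
    rw [h, hc, map_add, map_add, map_smul, map_smul, D1_pow_zero_of_le (by omega) (hL3 v),
      D1_pow_zero_of_le (by omega) hL1, D1_pow_zero_of_le (by omega) hL2, smul_zero, smul_zero]
    simp

theorem exists_idem (K L : ℕ) : ∃ e : F[X], (X : F[X]) ^ K ∣ e - 1 ∧ (X - 1 : F[X]) ^ L ∣ e := by
  have h : IsCoprime (X : F[X]) (X - 1) := ⟨1, -1, by ring⟩
  obtain ⟨a, b, hab⟩ := IsCoprime.pow (m := K) (n := L) h
  refine ⟨b * (X - 1) ^ L, ⟨-a, ?_⟩, Dvd.intro_left _ rfl⟩
  linear_combination hab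

theorem exists_idem' (K L : ℕ) : ∃ e : F[X], (X : F[X]) ^ K ∣ e ∧ (X - 1 : F[X]) ^ L ∣ e - 1 := by
  have h : IsCoprime (X : F[X]) (X - 1) := ⟨1, -1, by ring⟩
  obtain ⟨a, b, hab⟩ := IsCoprime.pow (m := K) (n := L) h
  refine ⟨a * X ^ K, Dvd.intro_left _ rfl, ⟨-b, ?_⟩⟩
  linear_combination hab

/-- Elements divisible by a high power of `X` act by zero on the source side. -/
theorem source_zero {m : Hm F} {K : ℕ} (hK : ∀ v : F[X] × F[X], m ((X : F[X]) ^ K • v) = 0)
    {x : F[X] × F[X]} (h1 : (X : F[X]) ^ (K + 1) ∣ x.1) (h2 : (X : F[X]) ^ (K + 1) ∣ x.2) :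
    m * rS F x = 0 := by
  obtain ⟨a, ha⟩ := h1
  obtain ⟨b, hb⟩ := h2
  refine LinearMap.ext fun v => ?_
  rw [Module.End.mul_apply, rS_apply]
  have h : (x.1 * v.1 + x.2 * v.2, (4 : F) • (x.2 * derivative v.1) +
      (2 : F) • (derivative x.2 * v.1) + x.1 * v.2) = (X : F[X]) ^ K •
      ((X * a * v.1 + X * b * v.2, (4 : F) • (X * b * derivative v.1) +
      (2 : F) • ((((K + 1 : ℕ) : F[X]) * b + X * derivative b) * v.1) + X * a * v.2) :
        F[X] × F[X]) := by
    rw [ha, hb]
    ext1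
    · simp only [Prod.smul_fst, smul_eq_mul]; ring
    · simp only [Prod.smul_snd, smul_eq_mul, derivative_mul, derivative_X_pow, smul_eq_C_mul,
        Nat.add_sub_cancel, map_natCast]
      ring
  rw [h, hK]; rfl

theorem piT_zero {L : ℕ} {u : F[X]} (hu : derivative^[L] u = 0) {a : F[X]}
    (ha : (X - 1 : F[X]) ^ L ∣ a) : piT F a u = 0 := by
  obtain ⟨b, rfl⟩ := ha
  have h : ∀ u, piT F ((X - 1) ^ L) u = derivative^[L] u := by
    intro u
    have := congrArg Prod.fst (congrArg (fun f : Module.End F (F[X] × F[X]) => f (u, 0))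
      (D1_pow (F := F) L))
    simp only [D1_pow_apply, opE_apply] at this
    exact this.symm
  rw [mul_comm, map_mul, Module.End.mul_apply, h, hu, map_zero]

/-- Elements divisible by a high power of `X - 1` act by zero on the target side. -/
theorem target_zero {m : Hm F} {L : ℕ}
    (hL : ∀ v, ((D1 : Module.End F (F[X] × F[X])) ^ L) (m v) = 0)
    {x : F[X] × F[X]} (h1 : (X - 1 : F[X]) ^ (L + 1) ∣ x.1) (h2 : (X - 1 : F[X]) ^ (L + 1) ∣ x.2) :
    rT F x * m = 0 := by
  refine LinearMap.ext fun v => ?_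
  have hv := hL v
  rw [D1_pow_apply] at hv
  have hv1 : derivative^[L] (m v).1 = 0 := congrArg Prod.fst hv
  have hv2 : derivative^[L] (m v).2 = 0 := congrArg Prod.snd hv
  have hle : (X - 1 : F[X]) ^ L ∣ (X - 1 : F[X]) ^ (L + 1) := pow_dvd_pow _ (Nat.le_succ L)
  have hd : (X - 1 : F[X]) ^ L ∣ derivative x.2 := by
    obtain ⟨b, hb⟩ := h2
    rw [hb, derivative_mul, derivative_pow]
    refine dvd_add ?_ (Dvd.dvd.mul_right hle _)
    simp only [Nat.add_sub_cancel]
    exact ⟨C ((L + 1 : ℕ) : F) * derivative (X - 1) * b, by ring⟩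
  rw [Module.End.mul_apply, rT, rho, LinearMap.add_apply, opE_apply, opO_apply]
  have e : piT F x.2 (deT F (m v).1) = deT F (piT F x.2 (m v).1) - piT F (derivative x.2) (m v).1 := by
    rw [hT]; abel
  rw [e, piT_zero hv1 (hle.trans h1), piT_zero hv2 (hle.trans h1), piT_zero hv1 (hle.trans h2),
    piT_zero hv2 (hle.trans h2), piT_zero hv1 hd, map_zero]
  simp

theorem tauH_bound {m : Hm F} {L : ℕ}
    (hL : ∀ v, ((D1 : Module.End F (F[X] × F[X])) ^ L) (m v) = 0) (v : F[X] × F[X]) :
    ((D1 : Module.End F (F[X] × F[X])) ^ L) (tauH F m v) = 0 := by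
  have h := hL (sg F F[X] v)
  rw [D1_pow_apply] at h ⊢
  rw [tauH, Module.End.mul_apply, Module.End.mul_apply, sg_apply (m (sg F F[X] v))]
  have h1 : derivative^[L] (m (sg F F[X] v)).1 = 0 := congrArg Prod.fst h
  have h2 : derivative^[L] (m (sg F F[X] v)).2 = 0 := congrArg Prod.snd h
  ext1
  · exact h1
  · simp only [iterate_derivative_neg, h2, neg_zero]; rfl

/-! ### Submodules -/

section Sub

variable (N : Submodule F (Md F)) (hτ : ∀ m ∈ N, tau m ∈ N) (hr : ∀ m ∈ N, ∀ x, ract m x ∈ N)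

/-- The image of the submodule in the space of all linear maps. -/
noncomputable def NN : Submodule F (Hm F) := N.map (Md F).subtype

variable {N}

theorem NN_tau (hτ : ∀ m ∈ N, tau m ∈ N) {m : Hm F} (hm : m ∈ NN N) : tauH F m ∈ NN N := by
  obtain ⟨n, hn, rfl⟩ := hm
  exact ⟨tau n, hτ n hn, rfl⟩

theorem NN_ract (hr : ∀ m ∈ N, ∀ x, ract m x ∈ N) {m : Hm F} (hm : m ∈ NN N)
    (x : F[X] × F[X]) : ractH F m x ∈ NN N := by
  obtain ⟨n, hn, rfl⟩ := hm
  exact ⟨ract n x, hr n hn x, rfl⟩

theorem NN_mem {m : Hm F} (hm : m ∈ NN N) :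
    ∃ K : ℕ, ∀ v : F[X] × F[X], m ((X : F[X]) ^ K • v) = 0 := by
  obtain ⟨n, hn, rfl⟩ := hm
  exact n.2

theorem rho_sub {W : Type*} [AddCommGroup W] [Module F W] (π : F[X] →ₐ[F] Module.End F W)
    (δ : Module.End F W) (x y : F[X] × F[X]) : rho π δ (x - y) = rho π δ x - rho π δ y := by
  rw [eq_sub_iff_add_eq, ← rho_add, sub_add_cancel]

theorem NN_right (h2 : (2 : F) ≠ 0) (hτ : ∀ m ∈ N, tau m ∈ N) (hr : ∀ m ∈ N, ∀ x, ract m x ∈ N)
    {m : Hm F} (hm : m ∈ NN N) (x : F[X] × F[X]) : m * rS F x ∈ NN N := by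
  obtain ⟨K, hK⟩ := NN_mem hm
  obtain ⟨L, hL⟩ := exists_bound hK
  obtain ⟨e, he1, he2⟩ := exists_idem (F := F) (K + 1) (L + 1)
  have h := NN_ract hr hm (e * x.1, e * x.2)
  have h1 : m * rS F (e * x.1, e * x.2) = m * rS F x := by
    rw [← sub_eq_zero, ← mul_sub, ← rho_sub]
    apply source_zero hK
    · have : (e * x.1, e * x.2).1 - x.1 = (e - 1) * x.1 := by ring
      rw [Prod.fst_sub, this]; exact Dvd.dvd.mul_right he1 _
    · have : (e * x.1, e * x.2).2 - x.2 = (e - 1) * x.2 := by ring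
      rw [Prod.snd_sub, this]; exact Dvd.dvd.mul_right he1 _
  have h3 : rT F (e * x.1, 0) * m = 0 :=
    target_zero hL (Dvd.dvd.mul_right he2 _) (dvd_zero _)
  have h4 : rT F (0, e * x.2) * tauH F m = 0 :=
    target_zero (tauH_bound hL) (dvd_zero _) (Dvd.dvd.mul_right he2 _)
  rw [ractH, h1, h3, h4, add_zero, add_zero] at h
  have h5 := (NN N).smul_mem (2 : F) h
  rwa [smul_smul, mul_inv_cancel₀ h2, one_smul] at h5

theorem NN_left (h2 : (2 : F) ≠ 0) (hτ : ∀ m ∈ N, tau m ∈ N) (hr : ∀ m ∈ N, ∀ x, ract m x ∈ N)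
    {m : Hm F} (hm : m ∈ NN N) (x : F[X] × F[X]) : rT F x * m ∈ NN N := by
  obtain ⟨K, hK⟩ := NN_mem hm
  obtain ⟨L, hL⟩ := exists_bound hK
  obtain ⟨e, he1, he2⟩ := exists_idem' (F := F) (K + 1) (L + 1)
  have hmul : ∀ {m : Hm F} (hm : m ∈ NN N)
      (hK : ∀ v : F[X] × F[X], m ((X : F[X]) ^ K • v) = 0)
      (hL : ∀ v, ((D1 : Module.End F (F[X] × F[X])) ^ L) (m v) = 0) (y : F[X] × F[X]),
      rT F (y.1, 0) * m + rT F (0, y.2) * tauH F m ∈ NN N := by
    intro m hm hK hL y
    have h := NN_ract hr hm (e * y.1, e * y.2)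
    have h1 : m * rS F (e * y.1, e * y.2) = 0 :=
      source_zero hK (Dvd.dvd.mul_right he1 _) (Dvd.dvd.mul_right he1 _)
    have h3 : rT F (e * y.1, 0) * m = rT F (y.1, 0) * m := by
      rw [← sub_eq_zero, ← sub_mul, ← rho_sub]
      apply target_zero hL
      · have : (e * y.1, (0 : F[X])).1 - (y.1, (0 : F[X])).1 = (e - 1) * y.1 := by ring
        rw [Prod.fst_sub, this]; exact Dvd.dvd.mul_right he2 _
      · simp
    have h4 : rT F (0, e * y.2) * tauH F m = rT F (0, y.2) * tauH F m := by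
      rw [← sub_eq_zero, ← sub_mul, ← rho_sub]
      apply target_zero (tauH_bound hL)
      · simp
      · have : ((0 : F[X]), e * y.2).2 - ((0 : F[X]), y.2).2 = (e - 1) * y.2 := by ring
        rw [Prod.snd_sub, this]; exact Dvd.dvd.mul_right he2 _
    rw [ractH, h1, h3, h4, zero_add] at h
    have h5 := (NN N).smul_mem (2 : F) h
    rwa [smul_smul, mul_inv_cancel₀ h2, one_smul] at h5
  have htt : tauH F (tauH F m) = m := by
    have : tauH F (tauH F m) = (sg F F[X] * sg F F[X]) * m * (sg F F[X] * sg F F[X]) := by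
      simp only [tauH]; noncomm_ring
    rw [this, sg_sg, one_mul, mul_one]
  have hKτ : ∀ v : F[X] × F[X], tauH F m ((X : F[X]) ^ K • v) = 0 := by
    intro v
    have h : sg F F[X] ((X : F[X]) ^ K • v) = (X : F[X]) ^ K • sg F F[X] v := by
      simp [sg_apply]
    rw [tauH, Module.End.mul_apply, Module.End.mul_apply, h, hK, map_zero]
  have e1 := hmul hm hK hL (x.1, 0)
  have e2 := hmul (NN_tau hτ hm) hKτ (tauH_bound hL) (0, x.2)
  rw [htt] at e2
  have hz : rT F ((0 : F[X]), (0 : F[X])) = 0 := by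
    rw [rT, rho_even, opE_zero]
  simp only [hz, zero_mul, add_zero, zero_add] at e1 e2
  have hx : rT F x = rT F (x.1, 0) + rT F (0, x.2) := by
    rw [rT, rT, rT, ← rho_add]; simp
  rw [hx, add_mul]
  exact (NN N).add_mem e1 e2

/-! ### The basic maps -/

/-- The map `v ↦ v.1(0) w1 + v.2(0) w2`. -/
noncomputable def bas (w1 w2 : F[X] × F[X]) : Hm F :=
  ((LinearMap.toSpanSingleton F (F[X] × F[X]) w1).comp
      ((lcoeff F 0).comp (LinearMap.fst F F[X] F[X]))) +
    ((LinearMap.toSpanSingleton F (F[X] × F[X]) w2).comp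
      ((lcoeff F 0).comp (LinearMap.snd F F[X] F[X])))

theorem bas_apply (w1 w2 v : F[X] × F[X]) :
    bas w1 w2 v = v.1.coeff 0 • w1 + v.2.coeff 0 • w2 := rfl

theorem bas_X (w1 w2 v : F[X] × F[X]) : bas w1 w2 ((X : F[X]) • v) = 0 := by
  rw [bas_apply]; simp

theorem mul_bas (f : Module.End F (F[X] × F[X])) (w1 w2 : F[X] × F[X]) :
    f * bas w1 w2 = bas (f w1) (f w2) := by
  refine LinearMap.ext fun v => ?_
  rw [Module.End.mul_apply, bas_apply, bas_apply, map_add, map_smul, map_smul]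

theorem bas_add (w1 w2 w1' w2' : F[X] × F[X]) :
    bas (w1 + w1') (w2 + w2') = bas w1 w2 + bas w1' w2' := by
  refine LinearMap.ext fun v => ?_
  simp only [LinearMap.add_apply, bas_apply, smul_add]; abel

theorem bas_smul (c : F) (w1 w2 : F[X] × F[X]) : bas (c • w1) (c • w2) = c • bas w1 w2 := by
  refine LinearMap.ext fun v => ?_
  simp only [LinearMap.smul_apply, bas_apply, smul_add, smul_comm c]

theorem bas_mul_X (w1 w2 : F[X] × F[X]) : bas w1 w2 * rS F (0, X) = bas ((2 : F) • w2) 0 := by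
  refine LinearMap.ext fun v => ?_
  rw [Module.End.mul_apply, rS_apply, bas_apply, bas_apply]
  simp [smul_smul, mul_comm]

theorem bas_mul_one (w1 : F[X] × F[X]) : bas w1 0 * rS F (0, 1) = bas 0 w1 := by
  refine LinearMap.ext fun v => ?_
  rw [Module.End.mul_apply, rS_apply, bas_apply, bas_apply]
  simp

theorem Z1_const (p q : F) : rT F (0, X - 1) (C p, C q) = (0, C (-2 * p)) := by
  have h : ∀ u, piT F (X - 1) u = derivative u := by
    intro u
    rw [map_sub, LinearMap.sub_apply, piT_X, map_one, Module.End.one_apply, add_sub_cancel_left]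
  rw [rT, rho_odd, opO_apply, h, h, deT_apply, derivative_sub, derivative_X, derivative_one,
    sub_zero, map_one, Module.End.one_apply]
  simp only [derivative_C, derivative_neg, derivative_mul, derivative_X, one_mul, mul_zero,
    add_zero]
  congr 1
  rw [smul_neg, smul_C, smul_C, ← C_neg, ← C_add]
  congr 1
  simp only [smul_eq_mul]
  ring

theorem rT_one (v : F[X] × F[X]) : rT F (0, 1) v = (v.2, (4 : F) • deT F v.1) := by
  rw [rT, rho_odd, opO_apply, map_one, Module.End.one_apply, Module.End.one_apply, derivative_one,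
    map_zero, LinearMap.zero_apply, smul_zero, add_zero]

theorem rS_one (v : F[X] × F[X]) : rS F (0, 1) v = (v.2, (4 : F) • derivative v.1) := by
  rw [rS_apply]; simp

theorem exists_seed [CharZero F] (hτ : ∀ m ∈ N, tau m ∈ N) (hr : ∀ m ∈ N, ∀ x, ract m x ∈ N)
    {m : Hm F} (hm : m ∈ NN N) (hm0 : m ≠ 0) : bas ((0, 1) : F[X] × F[X]) 0 ∈ NN N := by
  classical
  have h2 : (2 : F) ≠ 0 := two_ne_zero
  -- a nonzero element that vanishes on the multiples of `X`
  obtain ⟨m1, hm1, hm10, hX1⟩ : ∃ m1 ∈ NN N, m1 ≠ 0 ∧ ∀ v : F[X] × F[X], m1 ((X : F[X]) • v) = 0 := by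
    have hK := NN_mem hm
    have hs := Nat.find_spec hK
    have hpos : Nat.find hK ≠ 0 := by
      intro h0
      rw [h0] at hs
      exact hm0 (LinearMap.ext fun v => by simpa using hs v)
    obtain ⟨K, hKe⟩ := Nat.exists_eq_succ_of_ne_zero hpos
    rw [Nat.succ_eq_add_one] at hKe
    have hap : ∀ v, (m * rS F (X ^ K, 0)) v = m ((X : F[X]) ^ K • v) := by
      intro v
      rw [Module.End.mul_apply, rS, rho_even]; rfl
    refine ⟨m * rS F (X ^ K, 0), NN_right h2 hτ hr hm _, ?_, ?_⟩
    · intro h0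
      refine Nat.find_min hK (m := K) (by omega) fun v => ?_
      rw [← hap, h0]; rfl
    · intro v
      rw [hap, smul_smul, ← pow_succ, ← hKe]
      exact hs v
  -- of degree zero
  obtain ⟨m2, hm2, hm20, hX2, hD2⟩ : ∃ m2 ∈ NN N, m2 ≠ 0 ∧
      (∀ v : F[X] × F[X], m2 ((X : F[X]) • v) = 0) ∧ ∀ v, D1 (m2 v) = 0 := by
    have hL := exists_bound (K := 1) (m := m1) (by simpa using hX1)
    have hs := Nat.find_spec hL
    have hpos : Nat.find hL ≠ 0 := by
      intro h0
      rw [h0] at hs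
      exact hm10 (LinearMap.ext fun v => by simpa using hs v)
    obtain ⟨L, hLe⟩ := Nat.exists_eq_succ_of_ne_zero hpos
    rw [Nat.succ_eq_add_one] at hLe
    have he : rT F ((X - 1) ^ L, 0) = D1 ^ L := by rw [rT, rho_even, D1_pow]
    refine ⟨rT F ((X - 1) ^ L, 0) * m1, NN_left h2 hτ hr hm1 _, ?_, ?_, ?_⟩
    · intro h0
      refine Nat.find_min hL (m := L) (by omega) fun v => ?_
      rw [← he, ← Module.End.mul_apply, h0]; rfl
    · intro v
      rw [Module.End.mul_apply, hX1, map_zero]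
    · intro v
      rw [Module.End.mul_apply, he, ← Module.End.mul_apply, ← pow_succ', ← hLe]
      exact hs v
  have hconst : ∀ v, ∃ p q : F, m2 v = (C p, C q) := by
    intro v
    have h := hD2 v
    rw [D1_apply] at h
    have h1 : derivative (m2 v).1 = 0 := congrArg Prod.fst h
    have h3 : derivative (m2 v).2 = 0 := congrArg Prod.snd h
    exact ⟨_, _, Prod.ext (eq_C_of_natDegree_eq_zero (natDegree_eq_zero_of_derivative_eq_zero h1))
      (eq_C_of_natDegree_eq_zero (natDegree_eq_zero_of_derivative_eq_zero h3))⟩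
  obtain ⟨p1, q1, hw1⟩ := hconst (1, 0)
  obtain ⟨p2, q2, hw2⟩ := hconst (0, 1)
  have hb : m2 = bas (C p1, C q1) (C p2, C q2) := by
    refine LinearMap.ext fun v => ?_
    rw [bas_apply, ← hw1, ← hw2]
    exact eq_of_X hX2 v
  -- rescaling
  have hfin : ∀ c : F, c ≠ 0 → bas ((0, C c) : F[X] × F[X]) 0 ∈ NN N →
      bas ((0, 1) : F[X] × F[X]) 0 ∈ NN N := by
    intro c hc h
    have h3 := (NN N).smul_mem c⁻¹ h
    rw [← bas_smul, smul_zero] at h3
    have h4 : c⁻¹ • ((0, C c) : F[X] × F[X]) = (0, 1) := by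
      rw [Prod.smul_mk, smul_zero, smul_C, smul_eq_mul, inv_mul_cancel₀ hc, C_1]
    rwa [h4] at h3
  have hZ := NN_left h2 hτ hr hm2 (0, X - 1)
  rw [hb, mul_bas, Z1_const, Z1_const] at hZ
  by_cases hp2 : p2 = 0
  · by_cases hq2 : q2 = 0
    · rw [hp2, hq2] at hb
      by_cases hp1 : p1 = 0
      · by_cases hq1 : q1 = 0
        · exfalso
          apply hm20
          rw [hb, hp1, hq1]
          refine LinearMap.ext fun v => ?_
          rw [bas_apply]; simp
        · refine hfin q1 hq1 ?_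
          have h3 : bas ((0, C q1) : F[X] × F[X]) 0 = m2 := by
            rw [hb, hp1, C_0]; rfl
          rw [h3]; exact hm2
      · refine hfin (-2 * p1) (mul_ne_zero (neg_ne_zero.2 h2) hp1) ?_
        rw [hp2, mul_zero, C_0] at hZ
        exact hZ
    · refine hfin (2 * q2) (mul_ne_zero h2 hq2) ?_
      have h3 := NN_right h2 hτ hr hm2 (0, X)
      rw [hb, bas_mul_X, hp2, C_0, Prod.smul_mk, smul_zero, smul_C, smul_eq_mul] at h3
      exact h3
  · refine hfin (2 * (-2 * p2)) (mul_ne_zero h2 (mul_ne_zero (neg_ne_zero.2 h2) hp2)) ?_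
    have h3 := NN_right h2 hτ hr hZ (0, X)
    rw [bas_mul_X, Prod.smul_mk, smul_zero, smul_C, smul_eq_mul] at h3
    exact h3

theorem all_mem [CharZero F] (hτ : ∀ m ∈ N, tau m ∈ N) (hr : ∀ m ∈ N, ∀ x, ract m x ∈ N)
    (hE : bas ((0, 1) : F[X] × F[X]) 0 ∈ NN N) {m : Hm F} (hm : m ∈ Md F) : m ∈ NN N := by
  have h2 : (2 : F) ≠ 0 := two_ne_zero
  have h4 : (4 : F) ≠ 0 := by norm_num
  have hX : ∀ w, bas w 0 ∈ NN N → bas ((X : F[X]) • w) 0 ∈ NN N := by
    intro w hw
    have h := NN_left h2 hτ hr (NN_left h2 hτ hr hw (0, 1)) (0, 1)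
    rw [mul_bas, mul_bas, rT_one, rT_one, map_zero, map_zero] at h
    have h3 := (NN N).smul_mem (-(4 : F)⁻¹) h
    rw [← bas_smul, smul_zero] at h3
    have h5 : -(4 : F)⁻¹ • ((4 : F) • deT F w.1, (4 : F) • deT F w.2) = (X : F[X]) • w := by
      rw [Prod.smul_mk, smul_smul, smul_smul, neg_mul, inv_mul_cancel₀ h4, deT_apply, deT_apply]
      ext1 <;> simp
    have h6 : (((w.2, (4 : F) • deT F w.1) : F[X] × F[X]).2,
        (4 : F) • deT F ((w.2, (4 : F) • deT F w.1) : F[X] × F[X]).1) =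
        ((4 : F) • deT F w.1, (4 : F) • deT F w.2) := rfl
    rw [h6, h5] at h3
    exact h3
  have hE' : bas ((1, 0) : F[X] × F[X]) 0 ∈ NN N := by
    have h := NN_left h2 hτ hr hE (0, 1)
    rw [mul_bas, rT_one, map_zero, map_zero, smul_zero] at h
    exact h
  have hgen : ∀ w : F[X] × F[X], bas w 0 ∈ NN N → ∀ p : F[X], bas (p • w) 0 ∈ NN N := by
    intro w hw p
    induction p using Polynomial.induction_on' with
    | add p q hp hq =>
      have := (NN N).add_mem hp hq
      rwa [← bas_add, add_zero, ← add_smul] at this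
    | monomial n a =>
      induction n with
      | zero =>
        have := (NN N).smul_mem a hw
        rw [← bas_smul, smul_zero] at this
        have h3 : (monomial 0 a : F[X]) • w = a • w := by
          rw [monomial_zero_left]
          ext1
          · simp only [Prod.smul_fst, smul_eq_mul, smul_eq_C_mul]
          · simp only [Prod.smul_snd, smul_eq_mul, smul_eq_C_mul]
        rwa [h3]
      | succ n ih =>
        have := hX _ ih
        rwa [smul_smul, mul_comm, monomial_mul_X] at this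
  have hw : ∀ w : F[X] × F[X], bas w 0 ∈ NN N := by
    intro w
    have e : w = w.1 • ((1, 0) : F[X] × F[X]) + w.2 • ((0, 1) : F[X] × F[X]) := by
      ext1 <;> simp
    have := (NN N).add_mem (hgen _ hE' w.1) (hgen _ hE w.2)
    rwa [← bas_add, add_zero, ← e] at this
  have hw' : ∀ w w' : F[X] × F[X], bas w w' ∈ NN N := by
    intro w w'
    have h3 := NN_right h2 hτ hr (hw w') (0, 1)
    rw [bas_mul_one] at h3
    have := (NN N).add_mem (hw w) h3
    rwa [← bas_add, add_zero, zero_add] at this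
  -- composition with the derivative
  let dd : Module.End F (F[X] × F[X]) := (derivative : F[X] →ₗ[F] F[X]).prodMap derivative
  have hdd : ∀ n ∈ NN N, n * dd ∈ NN N := by
    intro n hn
    have h := NN_right h2 hτ hr (NN_right h2 hτ hr hn (0, 1)) (0, 1)
    have h3 := (NN N).smul_mem (4 : F)⁻¹ h
    have e : (4 : F)⁻¹ • (n * rS F (0, 1) * rS F (0, 1)) = n * dd := by
      refine LinearMap.ext fun v => ?_
      rw [LinearMap.smul_apply, Module.End.mul_apply, Module.End.mul_apply, Module.End.mul_apply,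
        rS_one, rS_one, ← map_smul, Prod.smul_mk, smul_smul, inv_mul_cancel₀ h4, one_smul]
      simp only [derivative_smul, smul_smul, inv_mul_cancel₀ h4, one_smul]
      rfl
    rwa [e] at h3
  have hdk : ∀ K : ℕ, ∀ n ∈ NN N, n * dd ^ K ∈ NN N := by
    intro K
    induction K with
    | zero => intro n hn; rwa [pow_zero, mul_one]
    | succ K ih => intro n hn; rw [pow_succ, ← mul_assoc]; exact hdd _ (ih n hn)
  have hddk : ∀ (K : ℕ) (v : F[X] × F[X]),
      (dd ^ K) v = (derivative^[K] v.1, derivative^[K] v.2) := by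
    intro K
    induction K with
    | zero => intro v; rfl
    | succ K ih =>
      intro v
      rw [pow_succ, Module.End.mul_apply, ih]
      rfl
  obtain ⟨K, hK⟩ := hm
  induction K generalizing m with
  | zero =>
    have : m = 0 := LinearMap.ext fun v => by simpa using hK v
    rw [this]; exact (NN N).zero_mem
  | succ K ih =>
    let m' : Hm F := m * opE (piS F) (X ^ K)
    have hm' : ∀ v : F[X] × F[X], m' v = m ((X : F[X]) ^ K • v) := fun v => rfl
    have h1 : ∀ v : F[X] × F[X], m' ((X : F[X]) • v) = 0 := by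
      intro v
      rw [hm', smul_smul, ← pow_succ, hK]
    have hm'b : m' = bas (m' (1, 0)) (m' (0, 1)) := LinearMap.ext fun v => eq_of_X h1 v
    have hm'N : m' ∈ NN N := by rw [hm'b]; exact hw' _ _
    have hfac : ((K.factorial : ℕ) : F) ≠ 0 := Nat.cast_ne_zero.2 K.factorial_ne_zero
    let m'' : Hm F := ((K.factorial : ℕ) : F)⁻¹ • (m' * dd ^ K)
    have hm''N : m'' ∈ NN N := (NN N).smul_mem _ (hdk K _ hm'N)
    have hsub : m - m'' ∈ NN N := by
      apply ih
      intro v
      have hm''v : m'' ((X : F[X]) ^ K • v) =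
          ((K.factorial : ℕ) : F)⁻¹ • m' ((dd ^ K) ((X : F[X]) ^ K • v)) := rfl
      rw [LinearMap.sub_apply, ← hm', hm''v, hddk,
        eq_of_X h1 v, eq_of_X h1 (derivative^[K] _, derivative^[K] _)]
      have hco : ∀ p : F[X], (derivative^[K] (X ^ K * p)).coeff 0 =
          ((K.factorial : ℕ) : F) * p.coeff 0 := by
        intro p
        rw [coeff_iterate_derivative, zero_add, Nat.descFactorial_self]
        have := coeff_X_pow_mul p K 0
        rw [zero_add] at this
        rw [this, nsmul_eq_mul]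
      simp only [Prod.smul_fst, Prod.smul_snd, smul_eq_mul, hco]
      rw [smul_add, smul_smul, smul_smul, ← mul_assoc, ← mul_assoc, inv_mul_cancel₀ hfac, one_mul,
        one_mul, sub_self]
    have := (NN N).add_mem hsub hm''N
    rwa [sub_add_cancel] at this

theorem irreducible [CharZero F] (hτ : ∀ m ∈ N, tau m ∈ N) (hr : ∀ m ∈ N, ∀ x, ract m x ∈ N) :
    N = ⊥ ∨ N = ⊤ := by
  by_cases h : N = ⊥
  · exact Or.inl h
  · right
    obtain ⟨m, hm, hm0⟩ := Submodule.exists_mem_ne_zero_of_ne_bot h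
    have hseed := exists_seed hτ hr (m := m.1) ⟨m, hm, rfl⟩ (fun h0 => hm0 (Subtype.ext h0))
    rw [eq_top_iff]
    intro n _
    obtain ⟨n', hn', he⟩ := all_mem hτ hr hseed n.2
    have : n' = n := Subtype.ext he
    rwa [← this]

end Sub

/-- The element of the module on which the action of `F[X]` is not associative. -/
noncomputable def seed : Md F := ⟨bas ((0, 1) : F[X] × F[X]) 0, ⟨1, fun v => by
  rw [pow_one]; exact bas_X _ _ _⟩⟩

theorem ract_seed (n : ℕ) : ract (seed : Md F) (X ^ (n + 1), 0) = (2 : F)⁻¹ • seed := by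
  apply Subtype.ext
  change ractH F (bas ((0, 1) : F[X] × F[X]) 0) (X ^ (n + 1), 0) =
    (2 : F)⁻¹ • bas ((0, 1) : F[X] × F[X]) 0
  have h1 : bas ((0, 1) : F[X] × F[X]) 0 * rS F (X ^ (n + 1), 0) = 0 := by
    refine LinearMap.ext fun v => ?_
    rw [Module.End.mul_apply, rS, rho_even, opE_apply, bas_apply, piS_apply, piS_apply]
    simp
  have h2 : rT F (X ^ (n + 1), 0) * bas ((0, 1) : F[X] × F[X]) 0 = bas (0, 1) 0 := by
    rw [mul_bas, rT, rho_even, map_zero]
    have h3 : ∀ k : ℕ, piT F (X ^ k) 1 = 1 := by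
      intro k
      induction k with
      | zero => simp
      | succ k ih => rw [pow_succ, piT_X_mul, derivative_one, add_zero, ih]
    rw [opE_apply, h3, map_zero]
  have h3 : rT F ((0 : F[X]), (0 : F[X])) = 0 := by rw [rT, rho_even, opE_zero]
  rw [ractH, h1, h2, h3, zero_mul, add_zero, zero_add]

theorem seed_ne_zero : (seed : Md F) ≠ 0 := by
  intro h
  have h1 : bas ((0, 1) : F[X] × F[X]) 0 = (0 : Hm F) := congrArg Subtype.val h
  have h2 := congrArg (fun f : Hm F => (f (1, 0)).2) h1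
  simp [bas_apply] at h2

end Pool.Agent.V1113.Kan
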